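import Pool.Agent.LibBPL64.Rot

/-!
# Error of the rotor network (helper64)
-/

namespace LibBPL64

open LibMC75

theorem card_split {d : ℕ} (hd : 0 < d) (r : ℕ) (f : ℕ → ℕ) (j : ℕ) :
    ((Finset.range r).filter fun k => f (k % d) = j).card =
      ∑ c ∈ Finset.range d, if f c = j then
        ((Finset.range r).filter fun k => k % d = c).card else 0 := by
  rw [Finset.card_eq_sum_card_fiberwise (f := fun k => k % d) (t := Finset.range d)
    (fun k _ => by simpa using Nat.mod_lt k hd)]
  refine Finset.sum_congr rfl fun c _ => ?_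
  by_cases h : f c = j
  · rw [if_pos h]
    congr 1
    ext k
    simp only [Finset.mem_filter, Finset.mem_range]
    constructor
    · rintro ⟨⟨h1, -⟩, h3⟩; exact ⟨h1, h3⟩
    · rintro ⟨h1, h3⟩; exact ⟨⟨h1, by rw [h3]; exact h⟩, h3⟩
  · rw [if_neg h, Finset.card_eq_zero]
    ext k
    simp only [Finset.mem_filter, Finset.mem_range, Finset.notMem_empty, iff_false]
    rintro ⟨⟨-, h2⟩, h3⟩
    rw [h3] at h2
    exact h h2

theorem idx_lt {n T t x : ℕ} (ht : t < T) (hx : x < n) : t * n + x < T * n := by
  calc t * n + x < t * n + n := by omega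
    _ = (t + 1) * n := by ring
    _ ≤ T * n := Nat.mul_le_mul_right _ ht

theorem rot_sum {n d M : ℕ} {v : ℕ → ℕ → ℕ} {T : ℕ} (hn : 0 < n) (hd : 0 < d)
    (hv : ∀ x < T * n, ∀ c < d, v x c < n) :
    ∀ t ≤ T, ∑ w ∈ Finset.range n, rot n d M v t w = M := by
  intro t
  induction t with
  | zero =>
    intro _
    simp only [rot]
    rw [Finset.sum_ite_eq' (Finset.range n) 0, if_pos (Finset.mem_range.2 hn)]
  | succ t ih =>
    intro ht
    refine Eq.trans ?_ (ih (by omega))
    simp only [rot, send]
    rw [Finset.sum_comm]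
    refine Finset.sum_congr rfl fun x hx => ?_
    have h1 := Finset.card_eq_sum_card_fiberwise (f := fun k => v (t * n + x) (k % d))
      (s := Finset.range (rot n d M v t x)) (t := Finset.range n) (fun k _ => by
        have h2 := hv (t * n + x) (idx_lt (by omega) (Finset.mem_range.1 hx)) (k % d)
          (Nat.mod_lt k hd)
        simpa using h2)
    rw [Finset.card_range] at h1
    exact h1.symm

theorem rot_le {n d M : ℕ} {v : ℕ → ℕ → ℕ} {T : ℕ} (hn : 0 < n) (hd : 0 < d)
    (hv : ∀ x < T * n, ∀ c < d, v x c < n) (t : ℕ) (ht : t ≤ T) (x : ℕ) (hx : x < n) :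
    rot n d M v t x ≤ M := by
  refine le_trans ?_ (rot_sum (M := M) hn hd hv t ht).le
  exact Finset.single_le_sum (f := fun w => rot n d M v t w) (fun _ _ => Nat.zero_le _)
    (Finset.mem_range.2 hx)

/-- the probability that the walk is in `w` at time `T` -/
noncomputable def prob (n d : ℕ) (v : ℕ → ℕ → ℕ) (T w : ℕ) : ℚ := (cnt n d v T w : ℚ) / d ^ T

theorem prob_zero (n d : ℕ) (v : ℕ → ℕ → ℕ) (w : ℕ) :
    prob n d v 0 w = if w = 0 then 1 else 0 := by
  unfold prob
  rw [cnt_zero]
  split_ifs <;> simp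

theorem prob_succ {n d : ℕ} {v : ℕ → ℕ → ℕ} {T : ℕ} (hn : 0 < n) (hd : 0 < d)
    (hv : ∀ x < T * n, ∀ c < d, v x c < n) (w : ℕ) :
    prob n d v (T + 1) w = ∑ x ∈ Finset.range n, ∑ c ∈ Finset.range d,
      if v (T * n + x) c = w then prob n d v T x / d else 0 := by
  have hd' : (d : ℚ) ≠ 0 := by exact_mod_cast hd.ne'
  unfold prob
  rw [cnt_succ hn hv, Nat.cast_sum, Finset.sum_div]
  refine Finset.sum_congr rfl fun x _ => ?_
  rw [← Finset.sum_filter, Finset.sum_const, nsmul_eq_mul, Nat.cast_mul]
  field_simp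
  ring

theorem err_bound {n d M : ℕ} {v : ℕ → ℕ → ℕ} {T : ℕ} (hn : 0 < n) (hd : 0 < d)
    (hv : ∀ x < T * n, ∀ c < d, v x c < n) :
    ∀ t ≤ T, ∑ w ∈ Finset.range n, |(rot n d M v t w : ℚ) - M * prob n d v t w| ≤
      n * d * t := by
  have hd' : (0 : ℚ) < d := by exact_mod_cast hd
  intro t
  induction t with
  | zero =>
    intro _
    simp only [rot, prob_zero]
    rw [Finset.sum_eq_zero]
    · simp
    · intro w _
      split_ifs <;> simp
  | succ t ih =>
    intro ht
    have hvt : ∀ x < t * n, ∀ c < d, v x c < n := fun x hx c hc =>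
      hv x (hx.trans_le (Nat.mul_le_mul_right _ (by omega))) c hc
    have h1 : ∀ w, |(rot n d M v (t + 1) w : ℚ) - M * prob n d v (t + 1) w| ≤
        ∑ x ∈ Finset.range n, ∑ c ∈ Finset.range d, if v (t * n + x) c = w then
          (1 + |(rot n d M v t x : ℚ) - M * prob n d v t x| / d) else 0 := by
      intro w
      rw [rot, send, prob_succ hn hd hvt]
      push_cast
      rw [Finset.mul_sum, ← Finset.sum_sub_distrib]
      refine (Finset.abs_sum_le_sum_abs _ _).trans (Finset.sum_le_sum fun x _ => ?_)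
      rw [card_split hd _ (fun c => v (t * n + x) c) w]
      push_cast
      rw [Finset.mul_sum, ← Finset.sum_sub_distrib]
      refine (Finset.abs_sum_le_sum_abs _ _).trans (Finset.sum_le_sum fun c hc => ?_)
      by_cases h : v (t * n + x) c = w
      · rw [if_pos h, if_pos h, if_pos h]
        have h2 := card_mod hd (rot n d M v t x) c (Finset.mem_range.1 hc)
        have h3 : |(rot n d M v t x : ℚ) / d - M * (prob n d v t x / d)| =
            |(rot n d M v t x : ℚ) - M * prob n d v t x| / d := by
          rw [← mul_div_assoc, ← sub_div, abs_div, abs_of_pos hd']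
        have h4 := abs_sub_le
          ((((Finset.range (rot n d M v t x)).filter fun k => k % d = c).card : ℕ) : ℚ)
          ((rot n d M v t x : ℚ) / d) (M * (prob n d v t x / d))
        rw [h3] at h4
        linarith
      · rw [if_neg h, if_neg h, if_neg h]
        simp
    have h2 : ∑ w ∈ Finset.range n, |(rot n d M v (t + 1) w : ℚ) - M * prob n d v (t + 1) w| ≤
        ∑ x ∈ Finset.range n, ∑ c ∈ Finset.range d,
          (1 + |(rot n d M v t x : ℚ) - M * prob n d v t x| / d) := by
      refine (Finset.sum_le_sum fun w _ => h1 w).trans ?_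
      rw [Finset.sum_comm]
      refine Finset.sum_le_sum fun x hx => ?_
      rw [Finset.sum_comm]
      refine Finset.sum_le_sum fun c hc => ?_
      rw [Finset.sum_ite_eq, if_pos]
      exact Finset.mem_range.2 (hv _ (idx_lt (by omega) (Finset.mem_range.1 hx)) c
        (Finset.mem_range.1 hc))
    refine h2.trans ?_
    have h3 := ih (by omega)
    have h4 : ∑ x ∈ Finset.range n, ∑ c ∈ Finset.range d,
          (1 + |(rot n d M v t x : ℚ) - M * prob n d v t x| / d) =
        n * d + ∑ w ∈ Finset.range n, |(rot n d M v t w : ℚ) - M * prob n d v t w| := by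
      have h5 : ∀ x ∈ Finset.range n, ∑ c ∈ Finset.range d,
          (1 + |(rot n d M v t x : ℚ) - M * prob n d v t x| / d) =
          d + |(rot n d M v t x : ℚ) - M * prob n d v t x| := by
        intro x _
        rw [Finset.sum_const, Finset.card_range, nsmul_eq_mul]
        field_simp
      rw [Finset.sum_congr rfl h5, Finset.sum_add_distrib, Finset.sum_const, Finset.card_range,
        nsmul_eq_mul]
    rw [h4]
    push_cast
    nlinarith

theorem err_le {n d M : ℕ} {v : ℕ → ℕ → ℕ} {T : ℕ} (hn : 0 < n) (hd : 0 < d)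
    (hv : ∀ x < T * n, ∀ c < d, v x c < n) (w : ℕ) (hw : w < n) :
    |(rot n d M v T w : ℚ) - M * prob n d v T w| ≤ n * d * T :=
  (Finset.single_le_sum (f := fun w => |(rot n d M v T w : ℚ) - M * prob n d v T w|)
    (fun _ _ => abs_nonneg _) (Finset.mem_range.2 hw)).trans (err_bound hn hd hv T le_rfl)

end LibBPL64
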