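import Pool.Agent.LibBPL64.Net

/-!
# One level of the circuit (helper64)
-/

namespace LibBPL64

open LibMC75

/-- number of tokens sent to place `j`, if the counters show `A` -/
def send (v X C : ℕ → ℕ → ℕ) (n : ℕ) (A : ℕ → ℕ) (j : ℕ) : ℕ :=
  ∑ x ∈ Finset.range n, ((Finset.range (A x)).filter fun k => v (X x k) (C x k) = j).card

/-- the state of the wires before the tokens of level `t` are moved -/
structure Inv (n M t : ℕ) (v : ℕ → ℕ → ℕ) (A : ℕ → ℕ) (s : Wire → Bool) : Prop where
  cnt : ∀ x < n, ∀ k < M, s (cz t x k) = decide (k < A x)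
  lit : ∀ t' ≥ t, ∀ X C j x k, s (.pos X C j [t', x, k]) = decide (v X C = j)
  nlit : ∀ t' ≥ t, ∀ X C j x k, s (.neg X C j [t', x, k]) = !decide (v X C = j)
  fresh : ∀ t' > t, ∀ x k, s (cz t' x k) = false
  two : ∀ a b, s (.zero [a, b]) = false
  ones : ∀ t' > t, s (.one [t']) = true

/-- moving the tokens of level `t`; `B` is what the counters of level `t + 1` show before -/
theorem deal3_inv {n M t : ℕ} {v : ℕ → ℕ → ℕ} {A : ℕ → ℕ} {s : Wire → Bool}
    (X C : ℕ → ℕ → ℕ) (B : ℕ → ℕ) (hA : ∀ x < n, A x ≤ M)
    (cnt : ∀ x < n, ∀ k < M, s (cz t x k) = decide (k < A x))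
    (lit : ∀ t' ≥ t, ∀ X C j x k, s (.pos X C j [t', x, k]) = decide (v X C = j))
    (nlit : ∀ t' ≥ t, ∀ X C j x k, s (.neg X C j [t', x, k]) = !decide (v X C = j))
    (next : ∀ j < n, ∀ h < M, s (cz (t + 1) j h) = decide (h < B j))
    (fresh : ∀ t' > t + 1, ∀ x k, s (cz t' x k) = false)
    (two : ∀ a b, s (.zero [a, b]) = false)
    (ones : ∀ t' > t + 1, s (.one [t']) = true) :
    Inv n M (t + 1) v (fun j => B j + send v X C n A j)
      (run (deal3 X C n M t (prs n M)) s) := by
  obtain ⟨d1, d2⟩ := deal3_spec v X C n M t (fun p => decide (p.2 < A p.1)) (prs n M) s B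
    (nodup_prs n M)
    (fun p hp => cnt p.1 (mem_prs.1 hp).1 p.2 (mem_prs.1 hp).2)
    (fun p _ j _ => lit t le_rfl _ _ _ _ _)
    (fun p _ j _ => nlit t le_rfl _ _ _ _ _) next
  have hfr : ∀ w : Wire, (∀ x k, w.pre ≠ [t, x, k]) → (∀ j h, w ≠ cz (t + 1) j h) →
      run (deal3 X C n M t (prs n M)) s w = s w :=
    fun w w1 w2 => d2 w (fun p _ => w1 p.1 p.2) w2
  refine ⟨?_, ?_, ?_, ?_, ?_, ?_⟩
  · intro x hx k hk
    rw [d1 x hx k hk]
    congr 2
    unfold send
    have := countP_prs n M A hA (fun a b => decide (v (X a b) (C a b) = x))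
    rw [this]
    simp
  · intro t' ht' X' C' j x k
    rw [hfr _ (by
      intro x' k' he
      have he' : [t', x, k] = [t, x', k'] := he
      simp only [List.cons.injEq] at he'
      omega) (by intro j h; simp [cz])]
    exact lit t' (by omega) _ _ _ _ _
  · intro t' ht' X' C' j x k
    rw [hfr _ (by
      intro x' k' he
      have he' : [t', x, k] = [t, x', k'] := he
      simp only [List.cons.injEq] at he'
      omega) (by intro j h; simp [cz])]
    exact nlit t' (by omega) _ _ _ _ _
  · intro t' ht' x k
    rw [hfr _ (by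
      intro x' k' he
      have he' : [t', x, k] = [t, x', k'] := he
      simp only [List.cons.injEq] at he'
      omega) (by
      intro j h he
      simp only [cz, Wire.zero.injEq, List.cons.injEq] at he
      omega)]
    exact fresh t' ht' _ _
  · intro a b
    rw [hfr _ (by
      intro x' k' he
      have he' : [a, b] = [t, x', k'] := he
      simp at he') (by intro j h; simp [cz])]
    exact two a b
  · intro t' ht'
    rw [hfr _ (by
      intro x' k' he
      have he' : [t'] = [t, x', k'] := he
      simp at he') (by intro j h; simp [cz])]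
    exact ones t' ht'

/-! ### The random walk network -/

/-- the counters of the network with rotors: `M` tokens start in place 0 -/
def rot (n d M : ℕ) (v : ℕ → ℕ → ℕ) : ℕ → ℕ → ℕ
  | 0, x => if x = 0 then M else 0
  | t + 1, j => send v (fun x _ => t * n + x) (fun _ k => k % d) n (rot n d M v t) j

/-- start tokens -/
def startM (M : ℕ) : List (Wire × Wire) :=
  (List.range M).flatMap fun k => [(Wire.one [k], cz 0 0 k)]

/-- the levels `0, ..., T - 1` -/
def walkNet (n d M T : ℕ) : List (Wire × Wire) :=
  (List.range T).flatMap fun t => deal3 (fun x _ => t * n + x) (fun _ k => k % d) n M t (prs n M)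

theorem startM_spec (n M : ℕ) (v : ℕ → ℕ → ℕ) :
    let s := run (startM M) (Wire.init v)
    (∀ x < n, ∀ k < M, s (cz 0 x k) = decide (k < if x = 0 then M else 0)) ∧
    (∀ w : Wire, (∀ k, w ≠ .one [k]) → (∀ k, w ≠ cz 0 0 k) → s w = w.init v) := by
  intro s
  have key := run_range_induction (fun k => [(Wire.one [k], cz 0 0 k)])
    (fun k0 s' => (∀ k < M, s' (cz 0 0 k) = decide (k < k0)) ∧
      (∀ k, k0 ≤ k → s' (.one [k]) = true) ∧
      (∀ w : Wire, (∀ k, w ≠ .one [k]) → (∀ k, w ≠ cz 0 0 k) → s' w = w.init v)) M (Wire.init v)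
    ⟨fun k _ => by simp [cz, Wire.init], fun k _ => rfl, fun w _ _ => rfl⟩ (by
      rintro q hq s' ⟨h1, h2, h3⟩
      rw [run_cons, run_nil]
      refine ⟨?_, ?_, ?_⟩
      · intro k hk
        by_cases hkq : k = q
        · subst hkq
          rw [step_snd _ (by simp [cz]), h2 k le_rfl]
          simp
        · rw [step_other _ (by simp [cz]) (by simp [cz, hkq]), h1 k hk]
          exact decide_eq_decide.2 (by omega)
      · intro k hk
        rw [step_other _ (by simp; omega) (by simp [cz])]
        exact h2 k (by omega)
      · intro w w1 w2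
        rw [step_other _ (w1 q) (w2 q)]
        exact h3 w w1 w2)
  obtain ⟨k1, -, k3⟩ := key
  refine ⟨?_, k3⟩
  intro x hx k hk
  by_cases hx0 : x = 0
  · subst hx0
    rw [if_pos rfl]
    exact k1 k hk
  · rw [if_neg hx0]
    have := k3 (cz 0 x k) (by simp [cz]) (by simp [cz, hx0])
    show run (startM M) (Wire.init v) (cz 0 x k) = _
    unfold startM
    rw [this]
    simp [cz, Wire.init]

/-- the final state of the wires of the network -/
theorem walkNet_spec (n d M T : ℕ) (v : ℕ → ℕ → ℕ)
    (hM : ∀ t ≤ T, ∀ x < n, rot n d M v t x ≤ M) :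
    let s := run (startM M ++ walkNet n d M T) (Wire.init v)
    (∀ x < n, ∀ k < M, s (cz T x k) = decide (k < rot n d M v T x)) ∧
    (∀ a b, s (.zero [a, b]) = false) := by
  intro s
  obtain ⟨s1, s2⟩ := startM_spec n M v
  have h : ∀ t ≤ T, (∀ x < n, ∀ k < M, run (startM M ++ walkNet n d M t) (Wire.init v) (cz t x k) =
      decide (k < rot n d M v t x)) ∧
      (∀ t' ≥ t, ∀ X C j x k, run (startM M ++ walkNet n d M t) (Wire.init v)
        (.pos X C j [t', x, k]) = decide (v X C = j)) ∧
      (∀ t' ≥ t, ∀ X C j x k, run (startM M ++ walkNet n d M t) (Wire.init v)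
        (.neg X C j [t', x, k]) = !decide (v X C = j)) ∧
      (∀ t' > t, ∀ x k, run (startM M ++ walkNet n d M t) (Wire.init v) (cz t' x k) = false) ∧
      (∀ a b, run (startM M ++ walkNet n d M t) (Wire.init v) (.zero [a, b]) = false) := by
    intro t
    induction t with
    | zero =>
      intro _
      have h0 : startM M ++ walkNet n d M 0 = startM M := by simp [walkNet]
      rw [h0]
      refine ⟨s1, ?_, ?_, ?_, ?_⟩
      · intro t' _ X C j x k
        rw [s2 _ (by simp) (by simp [cz])]
        rfl
      · intro t' _ X C j x k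
        rw [s2 _ (by simp) (by simp [cz])]
        rfl
      · intro t' ht' x k
        rw [s2 _ (by simp [cz]) (by
          intro k' he
          simp only [cz, Wire.zero.injEq, List.cons.injEq] at he
          omega)]
        rfl
      · intro a b
        rw [s2 _ (by simp) (by simp [cz])]
        rfl
    | succ t ih =>
      intro ht
      obtain ⟨i1, i2, i3, i4, i5⟩ := ih (by omega)
      have h0 : startM M ++ walkNet n d M (t + 1) = (startM M ++ walkNet n d M t) ++
          deal3 (fun x _ => t * n + x) (fun _ k => k % d) n M t (prs n M) := by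
        unfold walkNet
        rw [List.range_succ, List.flatMap_append, List.append_assoc]
        simp
      rw [h0, run_append]
      generalize run (startM M ++ walkNet n d M t) (Wire.init v) = s' at i1 i2 i3 i4 i5
      obtain ⟨d1, d2⟩ := deal3_spec v (fun x _ => t * n + x) (fun _ k => k % d) n M t
        (fun p => decide (p.2 < rot n d M v t p.1)) (prs n M) s' (fun _ => 0)
        (nodup_prs n M)
        (fun p hp => i1 p.1 (mem_prs.1 hp).1 p.2 (mem_prs.1 hp).2)
        (fun p _ j _ => i2 t le_rfl _ _ _ _ _)
        (fun p _ j _ => i3 t le_rfl _ _ _ _ _)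
        (fun j _ h _ => by rw [i4 (t + 1) (by omega)]; simp)
      have hfr : ∀ w : Wire, (∀ x k, w.pre ≠ [t, x, k]) → (∀ j h, w ≠ cz (t + 1) j h) →
          run (deal3 (fun x _ => t * n + x) (fun _ k => k % d) n M t (prs n M)) s' w = s' w :=
        fun w w1 w2 => d2 w (fun p _ => w1 p.1 p.2) w2
      refine ⟨?_, ?_, ?_, ?_, ?_⟩
      · intro x hx k hk
        rw [d1 x hx k hk]
        congr 1
        rw [rot, send]
        have := countP_prs n M (rot n d M v t) (hM t (by omega))
          (fun a b => decide (v (t * n + a) (b % d) = x))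
        rw [this, Nat.zero_add]
        simp
      · intro t' ht' X' C' j x k
        rw [hfr _ (by
          intro x' k' he
          have he' : [t', x, k] = [t, x', k'] := he
          simp only [List.cons.injEq] at he'
          omega) (by intro j h; simp [cz])]
        exact i2 t' (by omega) _ _ _ _ _
      · intro t' ht' X' C' j x k
        rw [hfr _ (by
          intro x' k' he
          have he' : [t', x, k] = [t, x', k'] := he
          simp only [List.cons.injEq] at he'
          omega) (by intro j h; simp [cz])]
        exact i3 t' (by omega) _ _ _ _ _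
      · intro t' ht' x k
        rw [hfr _ (by
          intro x' k' he
          have he' : [t', x, k] = [t, x', k'] := he
          simp only [List.cons.injEq] at he'
          omega) (by
          intro j h he
          simp only [cz, Wire.zero.injEq, List.cons.injEq] at he
          omega)]
        exact i4 t' (by omega) _ _
      · intro a b
        rw [hfr _ (by
          intro x' k' he
          have he' : [a, b] = [t, x', k'] := he
          simp at he') (by intro j h; simp [cz])]
        exact i5 a b
  obtain ⟨h1, -, -, -, h5⟩ := h T le_rfl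
  exact ⟨h1, h5⟩

/-- the last part: the wire with number `(2 j + 1) (E + 1) - 1` of place `w` is the output `(w, j)` -/
def outNet (n T K E : ℕ) : List (Wire × Wire) :=
  (List.range n).flatMap fun w => (List.range K).flatMap fun j =>
    [(cz T w ((2 * j + 1) * (E + 1) - 1), Wire.zero [w, j])]

theorem outNet_spec (n T K E : ℕ) (s : Wire → Bool) (h0 : ∀ a b, s (.zero [a, b]) = false) :
    ∀ w < n, ∀ j < K, run (outNet n T K E) s (.zero [w, j]) =
      s (cz T w ((2 * j + 1) * (E + 1) - 1)) := by
  have hinj : ∀ j j' : ℕ, (2 * j + 1) * (E + 1) - 1 = (2 * j' + 1) * (E + 1) - 1 → j = j' := by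
    intro j j' h
    have h1 : 1 ≤ (2 * j + 1) * (E + 1) := Nat.one_le_iff_ne_zero.2 (by positivity)
    have h2 : 1 ≤ (2 * j' + 1) * (E + 1) := Nat.one_le_iff_ne_zero.2 (by positivity)
    have h3 : (2 * j + 1) * (E + 1) = (2 * j' + 1) * (E + 1) := by omega
    have h4 := Nat.eq_of_mul_eq_mul_right (by omega) h3
    omega
  have key := run_range_induction (fun w => (List.range K).flatMap fun j =>
      [(cz T w ((2 * j + 1) * (E + 1) - 1), Wire.zero [w, j])])
    (fun w0 s' => (∀ w < w0, ∀ j < K, s' (.zero [w, j]) =
        s (cz T w ((2 * j + 1) * (E + 1) - 1))) ∧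
      (∀ w, w0 ≤ w → ∀ j, s' (.zero [w, j]) = false) ∧
      (∀ w, w0 ≤ w → ∀ k, s' (cz T w k) = s (cz T w k))) n s
    ⟨fun w hw => absurd hw (Nat.not_lt_zero _), fun w _ j => h0 w j, fun w _ k => rfl⟩ (by
      rintro q hq s' ⟨h1, h2, h3⟩
      have key2 := run_range_induction
        (fun j => [(cz T q ((2 * j + 1) * (E + 1) - 1), Wire.zero [q, j])])
        (fun j0 s'' => (∀ j < j0, s'' (.zero [q, j]) = s (cz T q ((2 * j + 1) * (E + 1) - 1))) ∧
          (∀ j, j0 ≤ j → s'' (.zero [q, j]) = false) ∧
          (∀ j, j0 ≤ j → s'' (cz T q ((2 * j + 1) * (E + 1) - 1)) =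
            s (cz T q ((2 * j + 1) * (E + 1) - 1))) ∧
          (∀ w, w ≠ q → ∀ j, s'' (.zero [w, j]) = s' (.zero [w, j])) ∧
          (∀ w, w ≠ q → ∀ k, s'' (cz T w k) = s' (cz T w k))) K s'
        ⟨fun j hj => absurd hj (Nat.not_lt_zero _), fun j _ => h2 q le_rfl j,
          fun j _ => h3 q le_rfl _, fun w _ j => rfl, fun w _ k => rfl⟩ (by
          rintro p hp s'' ⟨g1, g2, g3, g4, g5⟩
          rw [run_cons, run_nil]
          refine ⟨?_, ?_, ?_, ?_, ?_⟩
          · intro j hj
            by_cases hjp : j = p
            · subst hjp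
              rw [step_snd _ (by simp [cz]), g2 j le_rfl, g3 j le_rfl, Bool.or_false]
            · rw [step_other _ (by simp [cz]) (by simp [hjp])]
              exact g1 j (by omega)
          · intro j hj
            rw [step_other _ (by simp [cz]) (by simp; omega)]
            exact g2 j (by omega)
          · intro j hj
            rw [step_other _ (by
              intro he
              simp only [cz, Wire.zero.injEq, List.cons.injEq] at he
              have := hinj _ _ he.2.2.1
              omega) (by simp [cz])]
            exact g3 j (by omega)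
          · intro w hw j
            rw [step_other _ (by simp [cz]) (by simp [hw])]
            exact g4 w hw j
          · intro w hw k
            rw [step_other _ (by simp [cz, hw]) (by simp [cz])]
            exact g5 w hw k)
      obtain ⟨g1, -, -, g4, g5⟩ := key2
      refine ⟨?_, ?_, ?_⟩
      · intro w hw j hj
        by_cases hwq : w = q
        · subst hwq
          exact g1 j hj
        · rw [g4 w hwq j]
          exact h1 w (by omega) j hj
      · intro w hw j
        rw [g4 w (by omega) j]
        exact h2 w (by omega) j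
      · intro w hw k
        rw [g5 w (by omega) k]
        exact h3 w (by omega) k)
  exact key.1

end LibBPL64
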