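import Pool.Agent.LibMC75.C1
import Pool.Agent.LibMC75.X2

/-!
# Counters and routing by literals in comparator circuits (helper64)
-/

namespace LibBPL64

open LibMC75

theorem step_fst (s : Wire → Bool) (a b : Wire) : step s (a, b) a = (s a && s b) := by
  simp [step]

theorem step_snd (s : Wire → Bool) {a b : Wire} (h : b ≠ a) :
    step s (a, b) b = (s a || s b) := by
  simp [step, h]

theorem step_other (s : Wire → Bool) {a b w : Wire} (h1 : w ≠ a) (h2 : w ≠ b) :
    step s (a, b) w = s w := by
  simp [step, h1, h2]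

/-- adding a token to a unary counter -/
theorem counter (x : Wire) (z : ℕ → Wire) (hzi : ∀ a b, z a = z b → a = b)
    (hxz : ∀ a, x ≠ z a) (K : ℕ) (s : Wire → Bool) (c : ℕ)
    (hz : ∀ h < K, s (z h) = decide (h < c)) :
    (∀ h < K, run ((List.range K).flatMap fun h => [(x, z h)]) s (z h) =
      decide (h < c + (s x).toNat)) ∧
    ∀ w : Wire, w ≠ x → (∀ h, w ≠ z h) →
      run ((List.range K).flatMap fun h => [(x, z h)]) s w = s w := by
  have key := run_range_induction (fun h => [(x, z h)])
    (fun h0 s' => s' x = (s x && decide (h0 ≤ c)) ∧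
      (∀ h < K, s' (z h) = if h < h0 then decide (h < c + (s x).toNat)
        else decide (h < c)) ∧
      ∀ w : Wire, w ≠ x → (∀ h, w ≠ z h) → s' w = s w) K s
    ⟨by simp, fun h hh => by simp [hz h hh], fun w _ _ => rfl⟩ (by
      rintro q hq s' ⟨h1, h2, h3⟩
      rw [run_cons, run_nil]
      have e2 := h2 q hq
      rw [if_neg (lt_irrefl _)] at e2
      refine ⟨?_, ?_, ?_⟩
      · rw [step_fst, h1, e2, Bool.and_assoc]
        congr 1
        rw [← Bool.decide_and]
        exact decide_eq_decide.2 (by omega)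
      · intro h hh
        by_cases hhq : h = q
        · subst hhq
          rw [step_snd s' (hxz h).symm, h1, e2, if_pos (Nat.lt_succ_self _)]
          cases s x
          · simp
          · simp only [Bool.true_and, Bool.toNat_true, ← Bool.decide_or]
            exact decide_eq_decide.2 (by omega)
        · rw [step_other s' (hxz h).symm (fun e => hhq (hzi _ _ e)), h2 h hh]
          by_cases h4 : h < q
          · rw [if_pos h4, if_pos (by omega)]
          · rw [if_neg h4, if_neg (by omega)]
      · intro w hw1 hw2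
        rw [step_other s' hw1 (hw2 q)]
        exact h3 w hw1 hw2)
  obtain ⟨-, k2, k3⟩ := key
  refine ⟨fun h hh => ?_, k3⟩
  rw [k2 h hh, if_pos hh]

/-- the wire of the unary counter of place `x` at level `t` -/
def cz (t x k : ℕ) : Wire := .zero [t, x, k]

/-- the token on the counter wire `cz t x k` is moved, if the literal `[v X C = j]` is true, to the
counter of place `j` at level `t + 1` -/
def deal1 (X C M t x k j : ℕ) : List (Wire × Wire) :=
  [(Wire.pos X C j [t, x, k], cz t x k), (cz t x k, Wire.neg X C j [t, x, k])] ++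
  (List.range M).flatMap fun h => [(Wire.pos X C j [t, x, k], cz (t + 1) j h)]

theorem deal1_spec (X C M t x k j : ℕ) (s : Wire → Bool) (l : Bool) (b : ℕ)
    (hp : s (.pos X C j [t, x, k]) = l) (hn : s (.neg X C j [t, x, k]) = !l)
    (hb : ∀ h < M, s (cz (t + 1) j h) = decide (h < b)) :
    run (deal1 X C M t x k j) s (cz t x k) = (s (cz t x k) && !l) ∧
    (∀ h < M, run (deal1 X C M t x k j) s (cz (t + 1) j h) =
      decide (h < b + (s (cz t x k) && l).toNat)) ∧
    ∀ w, w ≠ .pos X C j [t, x, k] → w ≠ .neg X C j [t, x, k] → w ≠ cz t x k →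
      (∀ h, w ≠ cz (t + 1) j h) → run (deal1 X C M t x k j) s w = s w := by
  have e1 : cz t x k ≠ Wire.pos X C j [t, x, k] := by simp [cz]
  have e2 : cz t x k ≠ Wire.neg X C j [t, x, k] := by simp [cz]
  have e3 : Wire.pos X C j [t, x, k] ≠ Wire.neg X C j [t, x, k] := by simp
  have e4 : ∀ h, cz (t + 1) j h ≠ cz t x k := by intro h; simp [cz]
  have e5 : ∀ h, cz (t + 1) j h ≠ Wire.pos X C j [t, x, k] := by intro h; simp [cz]
  have e6 : ∀ h, cz (t + 1) j h ≠ Wire.neg X C j [t, x, k] := by intro h; simp [cz]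
  set s1 := step (step s (Wire.pos X C j [t, x, k], cz t x k))
    (cz t x k, Wire.neg X C j [t, x, k]) with hs1
  have h1 : run (deal1 X C M t x k j) s =
      run ((List.range M).flatMap fun h => [(Wire.pos X C j [t, x, k], cz (t + 1) j h)]) s1 := by
    unfold deal1
    rw [run_append]
    rfl
  have a1 : s1 (.pos X C j [t, x, k]) = (s (cz t x k) && l) := by
    rw [hs1, step_other _ e1.symm e3, step_fst, hp, Bool.and_comm]
  have a2 : s1 (cz t x k) = (s (cz t x k) && !l) := by
    rw [hs1, step_fst, step_snd _ e1, step_other _ e3.symm e2.symm, hp, hn]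
    cases s (cz t x k) <;> cases l <;> rfl
  have a3 : ∀ w, w ≠ .pos X C j [t, x, k] → w ≠ .neg X C j [t, x, k] → w ≠ cz t x k →
      s1 w = s w := by
    intro w w1 w2 w3
    rw [hs1, step_other _ w3 w2, step_other _ w1 w3]
  obtain ⟨c1, c2⟩ := counter (.pos X C j [t, x, k]) (fun h => cz (t + 1) j h)
    (by intro a b h; simpa [cz] using h) (fun a => (e5 a).symm) M s1 b
    (by intro h hh; rw [a3 _ (e5 h) (e6 h) (e4 h)]; exact hb h hh)
  rw [h1]
  refine ⟨?_, ?_, ?_⟩
  · rw [c2 _ e1 (fun h => (e4 h).symm), a2]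
  · intro h hh
    rw [c1 h hh, a1]
  · intro w w1 w2 w3 w4
    rw [c2 w w1 w4, a3 w w1 w2 w3]

/-- the token on `cz t x k` is moved to the counter of the place `v X C` at level `t + 1` -/
def deal2 (X C n M t x k : ℕ) : List (Wire × Wire) :=
  (List.range n).flatMap fun j => deal1 X C M t x k j

theorem deal2_spec (v : ℕ → ℕ → ℕ) (X C n M t x k : ℕ) (s : Wire → Bool) (B : ℕ → ℕ)
    (hp : ∀ j < n, s (.pos X C j [t, x, k]) = decide (v X C = j))
    (hn : ∀ j < n, s (.neg X C j [t, x, k]) = !decide (v X C = j))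
    (hb : ∀ j < n, ∀ h < M, s (cz (t + 1) j h) = decide (h < B j)) :
    (∀ j < n, ∀ h < M, run (deal2 X C n M t x k) s (cz (t + 1) j h) =
      decide (h < B j + (s (cz t x k) && decide (v X C = j)).toNat)) ∧
    ∀ w, w.pre ≠ [t, x, k] → (∀ j h, w ≠ cz (t + 1) j h) →
      run (deal2 X C n M t x k) s w = s w := by
  have key := run_range_induction (fun j => deal1 X C M t x k j)
    (fun j0 s' => s' (cz t x k) = (s (cz t x k) && decide (j0 ≤ v X C ∨ n ≤ v X C)) ∧
      (∀ j < n, j0 ≤ j → s' (.pos X C j [t, x, k]) = decide (v X C = j)) ∧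
      (∀ j < n, j0 ≤ j → s' (.neg X C j [t, x, k]) = !decide (v X C = j)) ∧
      (∀ j < n, ∀ h < M, s' (cz (t + 1) j h) =
        if j < j0 then decide (h < B j + (s (cz t x k) && decide (v X C = j)).toNat)
        else decide (h < B j)) ∧
      ∀ w, w.pre ≠ [t, x, k] → (∀ j h, w ≠ cz (t + 1) j h) → s' w = s w) n s
    ⟨by simp, fun j hj _ => hp j hj, fun j hj _ => hn j hj,
      fun j hj h hh => by simp [hb j hj h hh], fun w _ _ => rfl⟩ (by
      rintro q hq s' ⟨h1, h2, h3, h4, h5⟩
      have hbq : ∀ h < M, s' (cz (t + 1) q h) = decide (h < B q) := by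
        intro h hh
        have := h4 q hq h hh
        rwa [if_neg (lt_irrefl _)] at this
      obtain ⟨d1, d2, d3⟩ := deal1_spec X C M t x k q s' (decide (v X C = q)) (B q)
        (h2 q hq le_rfl) (h3 q hq le_rfl) hbq
      refine ⟨?_, ?_, ?_, ?_, ?_⟩
      · rw [d1, h1, Bool.and_assoc]
        congr 1
        rw [← decide_not, ← Bool.decide_and]
        exact decide_eq_decide.2 (by omega)
      · intro j hj hqj
        rw [d3 _ (by simp; omega) (by simp) (by simp [cz]) (by intro h; simp [cz])]
        exact h2 j hj (by omega)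
      · intro j hj hqj
        rw [d3 _ (by simp) (by simp; omega) (by simp [cz]) (by intro h; simp [cz])]
        exact h3 j hj (by omega)
      · intro j hj h hh
        by_cases hjq : j = q
        · subst hjq
          have e : (decide (j ≤ v X C ∨ n ≤ v X C) && decide (v X C = j)) =
              decide (v X C = j) := by
            rw [← Bool.decide_and]
            exact decide_eq_decide.2 (by omega)
          rw [d2 h hh, h1, if_pos (Nat.lt_succ_self _), Bool.and_assoc, e]
        · rw [d3 _ (by simp [cz]) (by simp [cz]) (by simp [cz]) (by intro h'; simp [cz, hjq]),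
            h4 j hj h hh]
          by_cases h6 : j < q
          · rw [if_pos h6, if_pos (by omega)]
          · rw [if_neg h6, if_neg (by omega)]
      · intro w w1 w2
        rw [d3 w (by rintro rfl; exact w1 rfl) (by rintro rfl; exact w1 rfl)
          (by rintro rfl; exact w1 rfl) (fun h => w2 q h)]
        exact h5 w w1 w2)
  obtain ⟨-, -, -, k4, k5⟩ := key
  refine ⟨fun j hj h hh => ?_, k5⟩
  have := k4 j hj h hh
  rwa [if_pos hj] at this

/-- all tokens of the counters in the list `L` are moved -/
def deal3 (X C : ℕ → ℕ → ℕ) (n M t : ℕ) (L : List (ℕ × ℕ)) : List (Wire × Wire) :=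
  L.flatMap fun p => deal2 (X p.1 p.2) (C p.1 p.2) n M t p.1 p.2

theorem deal3_spec (v X C : ℕ → ℕ → ℕ) (n M t : ℕ) (a : ℕ × ℕ → Bool) (L : List (ℕ × ℕ)) :
    ∀ (s : Wire → Bool) (B : ℕ → ℕ), L.Nodup →
    (∀ p ∈ L, s (cz t p.1 p.2) = a p) →
    (∀ p ∈ L, ∀ j < n, s (.pos (X p.1 p.2) (C p.1 p.2) j [t, p.1, p.2]) =
      decide (v (X p.1 p.2) (C p.1 p.2) = j)) →
    (∀ p ∈ L, ∀ j < n, s (.neg (X p.1 p.2) (C p.1 p.2) j [t, p.1, p.2]) =
      !decide (v (X p.1 p.2) (C p.1 p.2) = j)) →
    (∀ j < n, ∀ h < M, s (cz (t + 1) j h) = decide (h < B j)) →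
    (∀ j < n, ∀ h < M, run (deal3 X C n M t L) s (cz (t + 1) j h) =
      decide (h < B j + L.countP fun p => a p && decide (v (X p.1 p.2) (C p.1 p.2) = j))) ∧
    ∀ w, (∀ p ∈ L, w.pre ≠ [t, p.1, p.2]) → (∀ j h, w ≠ cz (t + 1) j h) →
      run (deal3 X C n M t L) s w = s w := by
  induction L with
  | nil =>
    intro s B _ _ _ _ hb
    exact ⟨fun j hj h hh => by simpa [deal3, run_nil] using hb j hj h hh,
      fun w _ _ => by simp [deal3, run_nil]⟩
  | cons p L ih =>
    intro s B hnd ha hp hn hb
    obtain ⟨hpL, hndL⟩ := List.nodup_cons.1 hnd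
    have hrun : run (deal3 X C n M t (p :: L)) s = run (deal3 X C n M t L)
        (run (deal2 (X p.1 p.2) (C p.1 p.2) n M t p.1 p.2) s) := by
      unfold deal3
      rw [List.flatMap_cons, run_append]
    obtain ⟨d1, d2⟩ := deal2_spec v (X p.1 p.2) (C p.1 p.2) n M t p.1 p.2 s B
      (hp p List.mem_cons_self) (hn p List.mem_cons_self) hb
    have hne : ∀ p' ∈ L, [t, p'.1, p'.2] ≠ [t, p.1, p.2] := by
      intro p' hp' he
      simp only [List.cons.injEq, and_true, true_and] at he
      exact hpL (by rw [← Prod.ext he.1 he.2]; exact hp')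
    obtain ⟨i1, i2⟩ := ih (run (deal2 (X p.1 p.2) (C p.1 p.2) n M t p.1 p.2) s)
      (fun j => B j + (s (cz t p.1 p.2) && decide (v (X p.1 p.2) (C p.1 p.2) = j)).toNat) hndL
      (by
        intro p' hp'
        have e : (cz t p'.1 p'.2).pre ≠ [t, p.1, p.2] := hne p' hp'
        rw [d2 _ e (by intro j h; simp [cz])]
        exact ha p' (List.mem_cons_of_mem _ hp'))
      (by
        intro p' hp' j hj
        have e : (Wire.pos (X p'.1 p'.2) (C p'.1 p'.2) j [t, p'.1, p'.2]).pre ≠ [t, p.1, p.2] :=
          hne p' hp'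
        rw [d2 _ e (by intro j h; simp [cz])]
        exact hp p' (List.mem_cons_of_mem _ hp') j hj)
      (by
        intro p' hp' j hj
        have e : (Wire.neg (X p'.1 p'.2) (C p'.1 p'.2) j [t, p'.1, p'.2]).pre ≠ [t, p.1, p.2] :=
          hne p' hp'
        rw [d2 _ e (by intro j h; simp [cz])]
        exact hn p' (List.mem_cons_of_mem _ hp') j hj)
      d1
    rw [hrun]
    refine ⟨?_, ?_⟩
    · intro j hj h hh
      rw [i1 j hj h hh, List.countP_cons, ha p List.mem_cons_self]
      congr 1
      apply propext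
      have : (a p && decide (v (X p.1 p.2) (C p.1 p.2) = j)).toNat =
          if (a p && decide (v (X p.1 p.2) (C p.1 p.2) = j)) = true then 1 else 0 := by
        cases (a p && decide (v (X p.1 p.2) (C p.1 p.2) = j)) <;> rfl
      rw [this]
      omega
    · intro w w1 w2
      rw [i2 w (fun p' hp' => w1 p' (List.mem_cons_of_mem _ hp')) w2,
        d2 w (w1 p List.mem_cons_self) w2]

/-- the pairs `(x, k)` in the order of two nested loops -/
def prs (n M : ℕ) : List (ℕ × ℕ) :=
  (List.range n).flatMap fun x => (List.range M).map fun k => (x, k)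

theorem mem_prs {n M : ℕ} {p : ℕ × ℕ} : p ∈ prs n M ↔ p.1 < n ∧ p.2 < M := by
  unfold prs
  simp only [List.mem_flatMap, List.mem_range, List.mem_map]
  constructor
  · rintro ⟨x, hx, k, hk, rfl⟩
    exact ⟨hx, hk⟩
  · rintro ⟨h1, h2⟩
    exact ⟨p.1, h1, p.2, h2, rfl⟩

theorem prs_eq (n M : ℕ) : prs n M = List.product (List.range n) (List.range M) := rfl

theorem nodup_prs (n M : ℕ) : (prs n M).Nodup := by
  rw [prs_eq]
  exact List.Nodup.product List.nodup_range List.nodup_range

theorem countP_range (M : ℕ) (g : ℕ → Bool) :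
    (List.range M).countP g = ((Finset.range M).filter fun k => g k = true).card := by
  induction M with
  | zero => simp
  | succ M ih =>
    rw [List.range_succ, List.countP_append, ih, Finset.range_add_one, Finset.filter_insert]
    by_cases h : g M = true
    · rw [if_pos h, Finset.card_insert_of_notMem (by simp)]
      simp [h]
    · rw [if_neg h]
      simp [h]

theorem countP_prs (n M : ℕ) (A : ℕ → ℕ) (hA : ∀ x < n, A x ≤ M) (f : ℕ → ℕ → Bool) :
    (prs n M).countP (fun p => decide (p.2 < A p.1) && f p.1 p.2) =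
      ∑ x ∈ Finset.range n, ((Finset.range (A x)).filter fun k => f x k = true).card := by
  induction n with
  | zero => simp [prs]
  | succ n ih =>
    have h1 : prs (n + 1) M = prs n M ++ (List.range M).map fun k => (n, k) := by
      unfold prs
      rw [List.range_succ, List.flatMap_append]
      simp
    rw [h1, List.countP_append, ih (fun x hx => hA x (by omega)), Finset.sum_range_succ]
    congr 1
    rw [List.countP_map]
    have h2 : ((Finset.range (A n)).filter fun k => f n k = true) =
        (Finset.range M).filter fun k => (decide (k < A n) && f n k) = true := by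
      ext k
      simp only [Finset.mem_filter, Finset.mem_range, Bool.and_eq_true, decide_eq_true_eq]
      have := hA n (by omega)
      constructor
      · rintro ⟨h1, h2⟩; exact ⟨by omega, h1, h2⟩
      · rintro ⟨_, h1, h2⟩; exact ⟨h1, h2⟩
    rw [h2, ← countP_range]
    rfl

end LibBPL64
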