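import Pool.Agent.LibBPL64.Err

/-!
# The program which prints the rotor network (helper64)
-/

namespace LibBPL64

open LibMC75

/-- rounding error -/
def eE (n d T : Ex) : Ex := .mul (.mul n d) T
/-- number of tokens -/
def eM (n d T K : Ex) : Ex := .mul (.mul (.const 2) K) (.add (eE n d T) (.const 1))

theorem eM_ev (env : List ℕ) (n d T K : Ex) : (eM n d T K).ev env =
    2 * K.ev env * (n.ev env * d.ev env * T.ev env + 1) := rfl

/-- environment `j, k, x, t, n, d, T, K` -/
def pDeal : Prog :=
  .seq (.comp (.pos (.add (.mul (.var 3) (.var 4)) (.var 2)) (.mod (.var 1) (.var 5)) (.var 0)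
      [.var 3, .var 2, .var 1]) (.zero [.var 3, .var 2, .var 1]))
    (.seq (.comp (.zero [.var 3, .var 2, .var 1])
      (.neg (.add (.mul (.var 3) (.var 4)) (.var 2)) (.mod (.var 1) (.var 5)) (.var 0)
        [.var 3, .var 2, .var 1]))
      (.loop (eM (.var 4) (.var 5) (.var 6) (.var 7))
        (.comp (.pos (.add (.mul (.var 4) (.var 5)) (.var 3)) (.mod (.var 2) (.var 6)) (.var 1)
          [.var 4, .var 3, .var 2]) (.zero [.add (.var 4) (.const 1), .var 1, .var 0]))))

theorem pDeal_print (j k x t n d T K : ℕ) :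
    pDeal.print [j, k, x, t, n, d, T, K] =
      deal1 (t * n + x) (k % d) (2 * K * (n * d * T + 1)) t x k j := by
  simp only [pDeal, Prog.print, WEx.ev, Ex.ev, List.map, eM_ev, List.getD_cons_zero,
    List.getD_cons_succ, deal1, cz, List.cons_append, List.nil_append]

/-- environment `n, d, T, K` -/
def pWalk : Prog :=
  .seq (.loop (eM (.var 0) (.var 1) (.var 2) (.var 3))
      (.comp (.one [.var 0]) (.zero [.const 0, .const 0, .var 0])))
    (.seq (.loop (.var 2) (.loop (.var 1) (.loop (eM (.var 2) (.var 3) (.var 4) (.var 5))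
        (.loop (.var 3) pDeal))))
      (.loop (.var 0) (.loop (.var 4)
        (.comp (.zero [.var 4, .var 1, .sub (.mul (.add (.mul (.const 2) (.var 0)) (.const 1))
          (.add (eE (.var 2) (.var 3) (.var 4)) (.const 1))) (.const 1)])
          (.zero [.var 1, .var 0])))))

theorem flatMap_prs {α : Type} (n M : ℕ) (f : ℕ → ℕ → List α) :
    (prs n M).flatMap (fun p => f p.1 p.2) =
      (List.range n).flatMap fun x => (List.range M).flatMap fun k => f x k := by
  unfold prs
  rw [List.flatMap_assoc]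
  congr 1
  funext x
  rw [List.flatMap_map]

theorem pWalk_print (n d T K : ℕ) :
    pWalk.print [n, d, T, K] =
      (startM (2 * K * (n * d * T + 1)) ++ walkNet n d (2 * K * (n * d * T + 1)) T) ++
        outNet n T K (n * d * T) := by
  have h1 : walkNet n d (2 * K * (n * d * T + 1)) T =
      (List.range T).flatMap fun t => (List.range n).flatMap fun x =>
        (List.range (2 * K * (n * d * T + 1))).flatMap fun k =>
          (List.range n).flatMap fun j =>
            deal1 (t * n + x) (k % d) (2 * K * (n * d * T + 1)) t x k j := by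
    unfold walkNet deal3
    congr 1
    funext t
    exact flatMap_prs n (2 * K * (n * d * T + 1)) (fun x k => deal2 (t * n + x) (k % d) n
      (2 * K * (n * d * T + 1)) t x k)
  rw [h1, List.append_assoc]
  unfold pWalk
  simp only [Prog.print]
  rfl

/-- the output wires -/
theorem pWalk_spec (n d T K : ℕ) (v : ℕ → ℕ → ℕ) (hn : 0 < n) (hd : 0 < d)
    (hv : ∀ x < T * n, ∀ c < d, v x c < n) (w : ℕ) (hw : w < n) (j : ℕ) (hj : j < K) :
    run (pWalk.print [n, d, T, K]) (Wire.init v) (.zero [w, j]) =
      decide ((2 * j + 1) * (n * d * T + 1) - 1 <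
        rot n d (2 * K * (n * d * T + 1)) v T w) := by
  rw [pWalk_print, run_append]
  obtain ⟨h1, h2⟩ := walkNet_spec n d (2 * K * (n * d * T + 1)) T v
    (fun t ht x hx => rot_le hn hd hv t ht x hx)
  rw [outNet_spec n T K (n * d * T) _ h2 w hw j hj]
  refine h1 w hw _ ?_
  have h3 : (2 * j + 1) * (n * d * T + 1) ≤ 2 * K * (n * d * T + 1) :=
    Nat.mul_le_mul_right _ (by omega)
  have h4 : 1 ≤ (2 * j + 1) * (n * d * T + 1) := Nat.one_le_iff_ne_zero.2 (by positivity)
  omega

theorem pWalk_approx (n d T K : ℕ) (v : ℕ → ℕ → ℕ) (hn : 0 < n) (hd : 0 < d)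
    (hv : ∀ x < T * n, ∀ c < d, v x c < n) (w : ℕ) (hw : w < n) (j : ℕ) (hj : j < K) :
    (((j + 1 : ℕ) : ℚ) / K ≤ prob n d v T w →
      run (pWalk.print [n, d, T, K]) (Wire.init v) (.zero [w, j]) = true) ∧
    (prob n d v T w ≤ (j : ℚ) / K →
      run (pWalk.print [n, d, T, K]) (Wire.init v) (.zero [w, j]) = false) := by
  rw [pWalk_spec n d T K v hn hd hv w hw j hj]
  have herr := err_le (M := 2 * K * (n * d * T + 1)) hn hd hv w hw
  set r := rot n d (2 * K * (n * d * T + 1)) v T w with hr
  have hK : (0 : ℚ) < K := by exact_mod_cast (Nat.zero_lt_of_lt hj)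
  have h4 : 1 ≤ (2 * j + 1) * (n * d * T + 1) := Nat.one_le_iff_ne_zero.2 (by positivity)
  rw [abs_le] at herr
  push_cast at herr
  constructor
  · intro h
    rw [div_le_iff₀ hK] at h
    rw [decide_eq_true_eq]
    have h5 : (((2 * j + 1) * (n * d * T + 1) : ℕ) : ℚ) ≤ r := by
      push_cast at h ⊢
      have h6 : (2 : ℚ) * (n * d * T + 1) * (j + 1) ≤
          2 * (n * d * T + 1) * (prob n d v T w * K) :=
        mul_le_mul_of_nonneg_left h (by positivity)
      nlinarith [herr.1]
    have h6 : (2 * j + 1) * (n * d * T + 1) ≤ r := by exact_mod_cast h5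
    omega
  · intro h
    rw [le_div_iff₀ hK] at h
    rw [decide_eq_false_iff_not, not_lt]
    have h5 : (r : ℚ) + 1 ≤ (((2 * j + 1) * (n * d * T + 1) : ℕ) : ℚ) := by
      push_cast at h ⊢
      have h6 : 2 * (n * d * T + 1) * (prob n d v T w * K) ≤
          (2 : ℚ) * (n * d * T + 1) * j :=
        mul_le_mul_of_nonneg_left h (by positivity)
      nlinarith [herr.2]
    have h6 : r + 1 ≤ (2 * j + 1) * (n * d * T + 1) := by exact_mod_cast h5
    omega

end LibBPL64
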