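import Pool.Agent.LibBPL64.Layer

/-!
# The rotor network approximates the random walk (helper64)
-/

namespace LibBPL64

open LibMC75

/-- the position after `t` steps: the walk starts in `0` and moves from `x` at time `t`, if the
coin shows `c t`, to `v (t * n + x) (c t)` -/
def pos (n : ℕ) (v : ℕ → ℕ → ℕ) (c : ℕ → ℕ) : ℕ → ℕ
  | 0 => 0
  | t + 1 => v (t * n + pos n v c t) (c t)

/-- a finite sequence of coin values, continued by zeros -/
def coins {d T : ℕ} (ω : Fin T → Fin d) (t : ℕ) : ℕ := if h : t < T then ω ⟨t, h⟩ else 0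

/-- the number of the sequences of `T` coins for which the walk is in `w` at time `T` -/
noncomputable def cnt (n d : ℕ) (v : ℕ → ℕ → ℕ) (T w : ℕ) : ℕ :=
  (Finset.univ.filter fun ω : Fin T → Fin d => pos n v (coins ω) T = w).card

theorem pos_lt {n d : ℕ} {v : ℕ → ℕ → ℕ} {T : ℕ} (hn : 0 < n)
    (hv : ∀ x < T * n, ∀ c < d, v x c < n) (c : ℕ → ℕ) (hc : ∀ t < T, c t < d) :
    ∀ t ≤ T, pos n v c t < n := by
  intro t
  induction t with
  | zero => intro _; exact hn
  | succ t ih =>
    intro ht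
    have h1 := ih (by omega)
    refine hv _ ?_ _ (hc t (by omega))
    calc t * n + pos n v c t < t * n + n := by omega
      _ = (t + 1) * n := by ring
      _ ≤ T * n := Nat.mul_le_mul_right _ ht

theorem pos_congr {n : ℕ} {v : ℕ → ℕ → ℕ} {c c' : ℕ → ℕ} (T : ℕ) (h : ∀ t < T, c t = c' t) :
    pos n v c T = pos n v c' T := by
  induction T with
  | zero => rfl
  | succ T ih =>
    rw [pos, pos, ih (fun t ht => h t (by omega)), h T (by omega)]

theorem cnt_zero (n d : ℕ) (v : ℕ → ℕ → ℕ) (w : ℕ) : cnt n d v 0 w = if w = 0 then 1 else 0 := by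
  unfold cnt
  simp only [pos]
  by_cases hw : w = 0
  · subst hw; simp
  · rw [if_neg hw]
    simp only [Finset.card_eq_zero]
    ext ω
    simp [Ne.symm hw]

theorem cnt_succ {n d : ℕ} {v : ℕ → ℕ → ℕ} {T : ℕ} (hn : 0 < n)
    (hv : ∀ x < T * n, ∀ c < d, v x c < n) (w : ℕ) :
    cnt n d v (T + 1) w = ∑ x ∈ Finset.range n,
      cnt n d v T x * ((Finset.range d).filter fun c => v (T * n + x) c = w).card := by
  have e : ∀ p : Fin d × (Fin T → Fin d),
      pos n v (coins (Fin.snoc (α := fun _ => Fin d) p.2 p.1 : Fin (T + 1) → Fin d)) (T + 1) =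
        v (T * n + pos n v (coins p.2) T) p.1 := by
    intro p
    rw [pos]
    have h1 : coins (Fin.snoc (α := fun _ => Fin d) p.2 p.1 : Fin (T + 1) → Fin d) T = p.1 := by
      unfold coins
      rw [dif_pos (Nat.lt_succ_self T)]
      have : (⟨T, Nat.lt_succ_self T⟩ : Fin (T + 1)) = Fin.last T := rfl
      rw [this, Fin.snoc_last]
    have h2 : ∀ t < T, coins (Fin.snoc (α := fun _ => Fin d) p.2 p.1 : Fin (T + 1) → Fin d) t =
        coins p.2 t := by
      intro t ht
      unfold coins
      rw [dif_pos (by omega), dif_pos ht]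
      have : (⟨t, by omega⟩ : Fin (T + 1)) = Fin.castSucc ⟨t, ht⟩ := rfl
      rw [this, Fin.snoc_castSucc]
    rw [h1, pos_congr T h2]
  have h1 : cnt n d v (T + 1) w = ∑ p : Fin d × (Fin T → Fin d),
      if v (T * n + pos n v (coins p.2) T) p.1 = w then 1 else 0 := by
    unfold cnt
    rw [Finset.card_filter, ← (Fin.snocEquiv (fun _ : Fin (T + 1) => Fin d)).sum_comp]
    refine Finset.sum_congr rfl fun p _ => ?_
    exact if_congr (iff_of_eq (congrArg (· = w) (e p))) rfl rfl
  rw [h1, Fintype.sum_prod_type_right]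
  have h2 : ∀ ω : Fin T → Fin d, (∑ c : Fin d,
      if v (T * n + pos n v (coins ω) T) c = w then 1 else 0) =
      ∑ x ∈ Finset.range n, if pos n v (coins ω) T = x then
        ((Finset.range d).filter fun c => v (T * n + x) c = w).card else 0 := by
    intro ω
    have hlt : pos n v (coins ω) T < n := by
      refine pos_lt hn hv _ ?_ T le_rfl
      intro t ht
      unfold coins
      rw [dif_pos ht]
      exact Fin.is_lt _
    rw [Finset.sum_ite_eq, if_pos (Finset.mem_range.2 hlt), Finset.card_filter,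
      Finset.sum_range]
  rw [Finset.sum_congr rfl fun ω _ => h2 ω, Finset.sum_comm]
  refine Finset.sum_congr rfl fun x _ => ?_
  unfold cnt
  rw [← Finset.sum_filter, Finset.sum_const, smul_eq_mul]

/-- number of `k < r` with `k % d = c` -/
theorem card_mod {d : ℕ} (hd : 0 < d) (r c : ℕ) (hc : c < d) :
    |(((Finset.range r).filter fun k => k % d = c).card : ℚ) - (r : ℚ) / d| ≤ 1 := by
  have h1 : ((Finset.range r).filter fun k => k % d = c).card =
      r / d + if c % d < r % d then 1 else 0 := by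
    rw [← Nat.count_modEq_card _ hd, Nat.count_eq_card_filter_range]
    congr 1
    ext k
    simp only [Finset.mem_filter, Nat.ModEq, Nat.mod_eq_of_lt hc]
  rw [h1]
  have hd' : (0 : ℚ) < d := by exact_mod_cast hd
  have h2 : (r : ℚ) = d * ((r / d : ℕ) : ℚ) + ((r % d : ℕ) : ℚ) := by
    exact_mod_cast (Nat.div_add_mod r d).symm
  have h3 : (r : ℚ) / d = ((r / d : ℕ) : ℚ) + ((r % d : ℕ) : ℚ) / d := by
    rw [div_eq_iff hd'.ne', add_mul, div_mul_cancel₀ _ hd'.ne', mul_comm ((r / d : ℕ) : ℚ)]
    exact h2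
  have h4 : (0 : ℚ) ≤ ((r % d : ℕ) : ℚ) / d := by positivity
  have h5 : ((r % d : ℕ) : ℚ) / d ≤ 1 := by
    rw [div_le_one hd']
    exact_mod_cast (Nat.mod_lt r hd).le
  rw [h3, abs_le]
  split_ifs <;> push_cast <;> constructor <;> linarith

end LibBPL64
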