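import Pool.Agent.LibBPL64.Visit

/-!
# Comparator circuits are walks with the rule (first visit, later visits) (helper64)
-/

namespace LibBPL64

/-- one comparator on the wires `g.1`, `g.2`: AND on the first, OR on the second -/
def cstep (s : ℕ → Bool) (g : ℕ × ℕ) : ℕ → Bool :=
  fun w => if w = g.1 then s g.1 && s g.2 else if w = g.2 then s g.1 || s g.2 else s w

/-- a comparator circuit -/
def crun (gs : List (ℕ × ℕ)) (s : ℕ → Bool) : ℕ → Bool := gs.foldl cstep s

/-- wire `a` after `i` comparators -/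
def vW (N i a : ℕ) : ℕ := N + 1 + (i * N + a)

/-- comparator number `i` -/
def vC (N m i : ℕ) : ℕ := N + 1 + (m + 1) * N + i

/-- The walk of a comparator circuit: the roots `0, ..., N` (the last one is the end), the wires
`vW N i a` and the comparators `vC N m i`. -/
def rule (N : ℕ) (gs : List (ℕ × ℕ)) (s : ℕ → Bool) (x k : ℕ) : ℕ :=
  if x < N then (if k = 0 ∧ s x = true then vW N 0 x else x + 1)
  else if x = N then N
  else if x < N + 1 + (gs.length + 1) * N then
    (if (x - (N + 1)) / N < gs.length then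
      (if (x - (N + 1)) % N = (gs.getD ((x - (N + 1)) / N) (0, 0)).1 ∨
          (x - (N + 1)) % N = (gs.getD ((x - (N + 1)) / N) (0, 0)).2
        then vC N gs.length ((x - (N + 1)) / N)
        else vW N ((x - (N + 1)) / N + 1) ((x - (N + 1)) % N))
    else 0)
  else vW N (x - (N + 1 + (gs.length + 1) * N) + 1)
    (if k = 0 then (gs.getD (x - (N + 1 + (gs.length + 1) * N)) (0, 0)).2
      else (gs.getD (x - (N + 1 + (gs.length + 1) * N)) (0, 0)).1)

section

variable {N : ℕ} {gs : List (ℕ × ℕ)} {s : ℕ → Bool}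

theorem vW_bd {m i a : ℕ} (hi : i ≤ m) (ha : a < N) :
    N < vW N i a ∧ vW N i a < N + 1 + (m + 1) * N := by
  have h1 : i * N ≤ m * N := Nat.mul_le_mul_right _ hi
  have h2 : (m + 1) * N = m * N + N := by ring
  unfold vW
  omega

theorem vW_inj {i a i' a' : ℕ} (ha : a < N) (ha' : a' < N) (h : vW N i a = vW N i' a') :
    i = i' ∧ a = a' := by
  unfold vW at h
  have h1 : i * N + a = i' * N + a' := by omega
  have hN : 0 < N := by omega
  have h2 : (i * N + a) / N = (i' * N + a') / N := by rw [h1]
  rw [Nat.mul_comm, Nat.mul_add_div hN, Nat.mul_comm, Nat.mul_add_div hN,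
    Nat.div_eq_of_lt ha, Nat.div_eq_of_lt ha'] at h2
  have h3 : i = i' := by omega
  subst h3
  exact ⟨rfl, by omega⟩

theorem rule_root {x : ℕ} (hx : x < N) (k : ℕ) :
    rule N gs s x k = if k = 0 ∧ s x = true then vW N 0 x else x + 1 := by
  unfold rule
  rw [if_pos hx]

theorem rule_end (k : ℕ) : rule N gs s N k = N := by
  unfold rule
  rw [if_neg (lt_irrefl _), if_pos rfl]

theorem vW_div {i a : ℕ} (ha : a < N) :
    (vW N i a - (N + 1)) / N = i ∧ (vW N i a - (N + 1)) % N = a := by
  have hN : 0 < N := by omega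
  have h1 : vW N i a - (N + 1) = N * i + a := by
    unfold vW
    rw [Nat.mul_comm i N]
    omega
  rw [h1, Nat.mul_add_div hN, Nat.mul_add_mod, Nat.div_eq_of_lt ha, Nat.mod_eq_of_lt ha]
  exact ⟨by omega, rfl⟩

theorem rule_W {i a : ℕ} (hi : i < gs.length) (ha : a < N) (k : ℕ) :
    rule N gs s (vW N i a) k = if a = (gs.getD i (0, 0)).1 ∨ a = (gs.getD i (0, 0)).2
      then vC N gs.length i else vW N (i + 1) a := by
  obtain ⟨b1, b2⟩ := vW_bd (N := N) (m := gs.length) hi.le ha
  obtain ⟨e1, e2⟩ := vW_div (N := N) (i := i) ha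
  unfold rule
  rw [if_neg (by omega), if_neg (by omega), if_pos b2, e1, e2, if_pos hi]

theorem rule_Wm {a : ℕ} (ha : a < N) (k : ℕ) :
    rule N gs s (vW N gs.length a) k = 0 := by
  obtain ⟨b1, b2⟩ := vW_bd (N := N) (m := gs.length) le_rfl ha
  obtain ⟨e1, e2⟩ := vW_div (N := N) (i := gs.length) ha
  unfold rule
  rw [if_neg (by omega), if_neg (by omega), if_pos b2, e1, if_neg (lt_irrefl _)]

theorem rule_C {i : ℕ} (k : ℕ) :
    rule N gs s (vC N gs.length i) k = vW N (i + 1)
      (if k = 0 then (gs.getD i (0, 0)).2 else (gs.getD i (0, 0)).1) := by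
  unfold rule vC
  rw [if_neg (by omega), if_neg (by omega), if_neg (by omega)]
  have : N + 1 + (gs.length + 1) * N + i - (N + 1 + (gs.length + 1) * N) = i := by omega
  rw [this]

theorem rule_later (x k : ℕ) : rule N gs s x (k + 1) = rule N gs s x 1 := by
  unfold rule
  simp

theorem getD_lt (hg : ∀ g ∈ gs, g.1 < N ∧ g.2 < N ∧ g.1 ≠ g.2) {i : ℕ} (hi : i < gs.length) :
    (gs.getD i (0, 0)).1 < N ∧ (gs.getD i (0, 0)).2 < N ∧
      (gs.getD i (0, 0)).1 ≠ (gs.getD i (0, 0)).2 := by
  rw [List.getD_eq_getElem _ _ hi]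
  exact hg _ (List.getElem_mem hi)

theorem rule_lt (hg : ∀ g ∈ gs, g.1 < N ∧ g.2 < N ∧ g.1 ≠ g.2) :
    ∀ x < N + 1 + (gs.length + 1) * N + gs.length, ∀ k,
      rule N gs s x k < N + 1 + (gs.length + 1) * N + gs.length := by
  intro x hx k
  by_cases h1 : x < N
  · rw [rule_root h1]
    have := (vW_bd (N := N) (m := gs.length) (Nat.zero_le _) h1).2
    split_ifs <;> omega
  by_cases h2 : x = N
  · subst h2
    rw [rule_end]
    omega
  by_cases h3 : x < N + 1 + (gs.length + 1) * N
  · have hN : 0 < N := by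
      rcases Nat.eq_zero_or_pos N with h | h
      · subst h; simp at h3; omega
      · exact h
    obtain ⟨a, i, ha, hi, rfl⟩ : ∃ a i, a < N ∧ i ≤ gs.length ∧ x = vW N i a := by
      refine ⟨(x - (N + 1)) % N, (x - (N + 1)) / N, Nat.mod_lt _ hN, ?_, ?_⟩
      · have : (x - (N + 1)) / N < gs.length + 1 := by
          rw [Nat.div_lt_iff_lt_mul hN]
          omega
        omega
      · unfold vW
        have := Nat.div_add_mod (x - (N + 1)) N
        rw [Nat.mul_comm] at this
        omega
    rcases Nat.lt_or_ge i gs.length with h4 | h4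
    · rw [rule_W h4 ha]
      have := (vW_bd (N := N) (m := gs.length) (i := i + 1) (by omega) ha).2
      split_ifs
      · unfold vC; omega
      · omega
    · have : i = gs.length := by omega
      subst this
      rw [rule_Wm ha]
      omega
  · obtain ⟨i, hi, rfl⟩ : ∃ i, i < gs.length ∧ x = vC N gs.length i := by
      refine ⟨x - (N + 1 + (gs.length + 1) * N), by omega, ?_⟩
      unfold vC
      omega
    rw [rule_C]
    obtain ⟨g1, g2, -⟩ := getD_lt hg hi
    have e1 := (vW_bd (N := N) (m := gs.length) (i := i + 1) (by omega) g1).2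
    have e2 := (vW_bd (N := N) (m := gs.length) (i := i + 1) (by omega) g2).2
    split_ifs <;> omega

/-! ### states -/

/-- the state `(p, c)` is reached -/
def Reach (σ : ℕ → ℕ → ℕ) (p : ℕ) (c : ℕ → ℕ) : Prop := ∃ t, walk σ t = (p, c)

theorem Reach.next {σ : ℕ → ℕ → ℕ} {p : ℕ} {c : ℕ → ℕ} (h : Reach σ p c) :
    Reach σ (σ p (c p)) (Function.update c p (c p + 1)) := by
  obtain ⟨t, ht⟩ := h
  exact ⟨t + 1, by rw [walk, ht]⟩

/-- the values of the wires after `i` comparators, if only the sources `< j` are used -/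
def val (gs : List (ℕ × ℕ)) (s : ℕ → Bool) (j i : ℕ) : ℕ → Bool :=
  crun (gs.take i) fun a => decide (a < j) && s a

theorem val_zero (j : ℕ) : val gs s j 0 = fun a => decide (a < j) && s a := rfl

theorem val_succ {j i : ℕ} (hi : i < gs.length) :
    val gs s j (i + 1) = cstep (val gs s j i) (gs.getD i (0, 0)) := by
  unfold val crun
  rw [List.take_succ_eq_append_getElem hi, List.foldl_append, List.getD_eq_getElem _ _ hi]
  rfl

/-- the expected numbers of visits while the source `j` is on its way in level `i` -/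
structure Good (N : ℕ) (gs : List (ℕ × ℕ)) (s : ℕ → Bool) (j i r : ℕ) (c : ℕ → ℕ) : Prop where
  root : ∀ l ≤ N, (c l = 0 ↔ r ≤ l)
  wire : ∀ i' ≤ gs.length, ∀ a < N, c (vW N i' a) =
    if i' < i then (val gs s (j + 1) i' a).toNat else (val gs s j i' a).toNat
  comp : ∀ i' < gs.length, c (vC N gs.length i') =
    if i' < i then (val gs s (j + 1) i' (gs.getD i' (0, 0)).1).toNat +
        (val gs s (j + 1) i' (gs.getD i' (0, 0)).2).toNat
      else (val gs s j i' (gs.getD i' (0, 0)).1).toNat +
        (val gs s j i' (gs.getD i' (0, 0)).2).toNat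

/-- `u'` is `u` with one more token on `a` -/
def Flip (u u' : ℕ → Bool) (a : ℕ) : Prop := u a = false ∧ u' = Function.update u a true

theorem flip_step {u u' : ℕ → Bool} {a : ℕ} (h : Flip u u' a) (g : ℕ × ℕ) (hg : g.1 ≠ g.2) :
    Flip (cstep u g) (cstep u' g) (if a = g.1 ∨ a = g.2 then
      (if (u g.1).toNat + (u g.2).toNat = 0 then g.2 else g.1) else a) := by
  obtain ⟨h1, rfl⟩ := h
  obtain ⟨p, q⟩ := g
  simp only at hg ⊢
  have hg' : q ≠ p := fun e => hg e.symm
  by_cases hp : a = p
  · subst hp
    rw [if_pos (Or.inl rfl)]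
    cases hq : u q
    · rw [if_pos (by simp [h1])]
      refine ⟨by simp [cstep, hg', h1, hq], ?_⟩
      funext w
      by_cases hw1 : w = a
      · subst hw1; simp [cstep, hg, hg', h1, hq]
      · by_cases hw2 : w = q
        · subst hw2; simp [cstep, hw1]
        · simp [cstep, hw1, hw2]
    · rw [if_neg (by simp)]
      refine ⟨by simp [cstep, h1], ?_⟩
      funext w
      by_cases hw1 : w = a
      · subst hw1; simp [cstep, hg', hq]
      · by_cases hw2 : w = q
        · subst hw2; simp [cstep, hw1, hq]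
        · simp [cstep, hw1, hw2]
  · by_cases hq : a = q
    · subst hq
      rw [if_pos (Or.inr rfl)]
      cases hp' : u p
      · rw [if_pos (by simp [h1])]
        refine ⟨by simp [cstep, hg', h1, hp'], ?_⟩
        funext w
        by_cases hw1 : w = p
        · subst hw1; simp [cstep, hg, hp']
        · by_cases hw2 : w = a
          · subst hw2; simp [cstep, hw1]
          · simp [cstep, hw1, hw2]
      · rw [if_neg (by simp)]
        refine ⟨by simp [cstep, h1], ?_⟩
        funext w
        by_cases hw1 : w = p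
        · subst hw1; simp [cstep, hg, hp']
        · by_cases hw2 : w = a
          · subst hw2; simp [cstep, hw1, hp']
          · simp [cstep, hw1, hw2]
    · rw [if_neg (by tauto)]
      refine ⟨by simp [cstep, hp, hq, h1], ?_⟩
      funext w
      by_cases hw : w = a
      · subst hw; simp [cstep, hp, hq]
      · by_cases hw1 : w = p
        · subst hw1; simp [cstep, hw, Function.update_of_ne (Ne.symm hq)]
        · by_cases hw2 : w = q
          · subst hw2; simp [cstep, hw, hw1, Function.update_of_ne (Ne.symm hp)]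
          · simp [cstep, hw, hw1, hw2]

end

end LibBPL64
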