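import Pool.Agent.LibBPL64.VHard

/-!
# Comparator circuits are walks: the path of one token (helper64)
-/

namespace LibBPL64

section

variable {N : ℕ} {gs : List (ℕ × ℕ)} {s : ℕ → Bool}

theorem vC_ne_vW {i i' a : ℕ} (hi : i' ≤ gs.length) (ha : a < N) :
    vW N i' a ≠ vC N gs.length i := by
  have := (vW_bd (N := N) hi ha).2
  unfold vC
  omega

theorem vC_gt (i : ℕ) : N < vC N gs.length i := by
  unfold vC
  omega

theorem vC_inj {i i' : ℕ} (h : vC N gs.length i = vC N gs.length i') : i = i' := by
  unfold vC at h
  omega

/-- one level of the path of a token -/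
theorem path_step (hg : ∀ g ∈ gs, g.1 < N ∧ g.2 < N ∧ g.1 ≠ g.2) {j i r a : ℕ} {c : ℕ → ℕ}
    (hi : i < gs.length) (ha : a < N)
    (hgood : Good N gs s j i r c) (hfl : Flip (val gs s j i) (val gs s (j + 1) i) a)
    (hreach : Reach (rule N gs s) (vW N i a) c) :
    ∃ a' c', a' < N ∧ Good N gs s j (i + 1) r c' ∧
      Flip (val gs s j (i + 1)) (val gs s (j + 1) (i + 1)) a' ∧
      Reach (rule N gs s) (vW N (i + 1) a') c' := by
  obtain ⟨g1, g2, g3⟩ := getD_lt hg hi
  have hfl' := flip_step hfl (gs.getD i (0, 0)) g3
  rw [← val_succ hi, ← val_succ hi] at hfl'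
  have hua : (val gs s j i a).toNat = 0 := by rw [hfl.1]; rfl
  have hua' : (val gs s (j + 1) i a).toNat = 1 := by rw [hfl.2]; simp
  have hub : ∀ b, b ≠ a → val gs s (j + 1) i b = val gs s j i b := by
    intro b hb
    rw [hfl.2, Function.update_of_ne hb]
  have hn := hreach.next
  rw [rule_W hi ha] at hn
  have hca : c (vW N i a) = 0 := by
    rw [hgood.wire i hi.le a ha, if_neg (lt_irrefl _), hua]
  by_cases hcase : a = (gs.getD i (0, 0)).1 ∨ a = (gs.getD i (0, 0)).2
  · rw [if_pos hcase] at hn hfl'
    have hn2 := hn.next
    rw [rule_C] at hn2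
    have hcc : (Function.update c (vW N i a) (c (vW N i a) + 1)) (vC N gs.length i) =
        (val gs s j i (gs.getD i (0, 0)).1).toNat + (val gs s j i (gs.getD i (0, 0)).2).toNat := by
      rw [Function.update_of_ne (vC_ne_vW hi.le ha).symm, hgood.comp i hi, if_neg (lt_irrefl _)]
    rw [hcc] at hn2
    refine ⟨_, _, ?_, ?_, hfl', hn2⟩
    · split_ifs <;> assumption
    · refine ⟨?_, ?_, ?_⟩
      · intro l hl
        rw [Function.update_of_ne (by have := vC_gt (N := N) (gs := gs) i; omega),
          Function.update_of_ne (by have := (vW_bd (N := N) hi.le ha).1; omega)]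
        exact hgood.root l hl
      · intro i' hi' b hb
        rw [Function.update_of_ne (vC_ne_vW hi' hb)]
        by_cases he : vW N i' b = vW N i a
        · obtain ⟨rfl, rfl⟩ := vW_inj hb ha he
          rw [Function.update_self, hca, if_pos (Nat.lt_succ_self _), hua']
        · rw [Function.update_of_ne he, hgood.wire i' hi' b hb]
          by_cases h1 : i' < i
          · rw [if_pos h1, if_pos (by omega)]
          · rw [if_neg h1]
            by_cases h2 : i' < i + 1
            · have : i' = i := by omega
              subst this
              rw [if_pos h2, hub b (by rintro rfl; exact he rfl)]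
            · rw [if_neg h2]
      · intro i' hi'
        by_cases he : i' = i
        · subst he
          rw [Function.update_self, if_pos (Nat.lt_succ_self _)]
          rcases hcase with h | h
          · rw [← h, hua, hua', hub _ (by rw [h]; exact g3.symm)]
            omega
          · rw [← h, hua, hua', hub _ (by rw [h]; exact g3)]
        · rw [Function.update_of_ne (fun e => he (vC_inj e)),
            Function.update_of_ne (vC_ne_vW hi.le ha).symm, hgood.comp i' hi']
          by_cases h1 : i' < i
          · rw [if_pos h1, if_pos (by omega)]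
          · rw [if_neg h1, if_neg (by omega)]
  · rw [if_neg hcase] at hn hfl'
    refine ⟨a, _, ha, ?_, hfl', hn⟩
    refine ⟨?_, ?_, ?_⟩
    · intro l hl
      rw [Function.update_of_ne (by have := (vW_bd (N := N) hi.le ha).1; omega)]
      exact hgood.root l hl
    · intro i' hi' b hb
      by_cases he : vW N i' b = vW N i a
      · obtain ⟨rfl, rfl⟩ := vW_inj hb ha he
        rw [Function.update_self, hca, if_pos (Nat.lt_succ_self _), hua']
      · rw [Function.update_of_ne he, hgood.wire i' hi' b hb]
        by_cases h1 : i' < i
        · rw [if_pos h1, if_pos (by omega)]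
        · rw [if_neg h1]
          by_cases h2 : i' < i + 1
          · have : i' = i := by omega
            subst this
            rw [if_pos h2, hub b (by rintro rfl; exact he rfl)]
          · rw [if_neg h2]
    · intro i' hi'
      rw [Function.update_of_ne (vC_ne_vW hi.le ha).symm, hgood.comp i' hi']
      by_cases h1 : i' < i
      · rw [if_pos h1, if_pos (by omega)]
      · rw [if_neg h1]
        by_cases h2 : i' < i + 1
        · have : i' = i := by omega
          subst this
          rw [if_pos h2, hub _ (by rintro h; exact hcase (Or.inl h.symm)),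
            hub _ (by rintro h; exact hcase (Or.inr h.symm))]
        · rw [if_neg h2]

/-- the path through all levels -/
theorem path_all (hg : ∀ g ∈ gs, g.1 < N ∧ g.2 < N ∧ g.1 ≠ g.2) {j r a : ℕ} {c : ℕ → ℕ}
    (ha : a < N)
    (hgood : Good N gs s j 0 r c) (hfl : Flip (val gs s j 0) (val gs s (j + 1) 0) a)
    (hreach : Reach (rule N gs s) (vW N 0 a) c) :
    ∀ i ≤ gs.length, ∃ a' c', a' < N ∧ Good N gs s j i r c' ∧
      Flip (val gs s j i) (val gs s (j + 1) i) a' ∧
      Reach (rule N gs s) (vW N i a') c' := by
  intro i
  induction i with
  | zero => intro _; exact ⟨a, c, ha, hgood, hfl, hreach⟩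
  | succ i ih =>
    intro hi
    obtain ⟨a', c', h1, h2, h3, h4⟩ := ih (by omega)
    exact path_step hg (by omega) h1 h2 h3 h4

theorem good_shift {j r : ℕ} {c : ℕ → ℕ} (h : Good N gs s j (gs.length + 1) r c) :
    Good N gs s (j + 1) 0 r c := by
  refine ⟨h.root, ?_, ?_⟩
  · intro i' hi' a ha
    rw [h.wire i' hi' a ha, if_pos (by omega), if_neg (Nat.not_lt_zero _)]
  · intro i' hi'
    rw [h.comp i' hi', if_pos (by omega), if_neg (Nat.not_lt_zero _)]

/-- the walk along the roots -/
theorem roots_walk {j : ℕ} {c : ℕ → ℕ} (hj : j < N) (hgood : Good N gs s (j + 1) 0 (j + 1) c)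
    (hreach : Reach (rule N gs s) 0 c) :
    ∀ l ≤ j + 1, ∃ c', Good N gs s (j + 1) 0 (j + 1) c' ∧ Reach (rule N gs s) l c' := by
  intro l
  induction l with
  | zero => intro _; exact ⟨c, hgood, hreach⟩
  | succ l ih =>
    intro hl
    obtain ⟨c', h1, h2⟩ := ih (by omega)
    have h3 := h2.next
    have h4 : c' l ≠ 0 := fun h => by
      have := (h1.root l (by omega)).1 h
      omega
    rw [rule_root (by omega), if_neg (fun h => h4 h.1)] at h3
    refine ⟨_, ⟨?_, ?_, ?_⟩, h3⟩
    · intro l' hl'
      by_cases he : l' = l
      · subst he
        rw [Function.update_self]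
        constructor
        · intro h; omega
        · intro h; omega
      · rw [Function.update_of_ne he]
        exact h1.root l' hl'
    · intro i' hi' a ha
      rw [Function.update_of_ne (by have := (vW_bd (N := N) hi' ha).1; omega)]
      exact h1.wire i' hi' a ha
    · intro i' hi'
      rw [Function.update_of_ne (by have := vC_gt (N := N) (gs := gs) i'; omega)]
      exact h1.comp i' hi'

theorem main_reach (hg : ∀ g ∈ gs, g.1 < N ∧ g.2 < N ∧ g.1 ≠ g.2) :
    ∀ j ≤ N, ∃ c, Good N gs s j 0 j c ∧ Reach (rule N gs s) j c := by
  intro j
  induction j with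
  | zero =>
    intro _
    have hz : ∀ i a, val gs s 0 i a = false := by
      intro i
      induction i with
      | zero => intro a; simp [val_zero]
      | succ i ih =>
        intro a
        by_cases hi : i < gs.length
        · rw [val_succ hi]
          unfold cstep
          rw [ih, ih, ih]
          simp
        · have : val gs s 0 (i + 1) = val gs s 0 i := by
            unfold val
            rw [List.take_of_length_le (by omega), List.take_of_length_le (by omega)]
          rw [this]
          exact ih a
    refine ⟨fun _ => 0, ⟨fun l _ => by simp, ?_, ?_⟩, ⟨0, rfl⟩⟩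
    · intro i' _ a _
      rw [if_neg (Nat.not_lt_zero _), hz]
      rfl
    · intro i' _
      rw [if_neg (Nat.not_lt_zero _), hz, hz]
      rfl
  | succ j ih =>
    intro hj
    obtain ⟨c, h1, h2⟩ := ih (by omega)
    have hcj : c j = 0 := (h1.root j (by omega)).2 le_rfl
    have h3 := h2.next
    rw [rule_root (by omega), hcj] at h3
    have hroot : ∀ l ≤ N, (Function.update c j (0 + 1) l = 0 ↔ j + 1 ≤ l) := by
      intro l hl
      by_cases he : l = j
      · subst he
        rw [Function.update_self]
        constructor <;> intro h <;> omega
      · rw [Function.update_of_ne he, h1.root l hl]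
        omega
    by_cases hs : s j = true
    · rw [if_pos ⟨rfl, hs⟩] at h3
      have hgood : Good N gs s j 0 (j + 1) (Function.update c j (0 + 1)) := by
        refine ⟨hroot, ?_, ?_⟩
        · intro i' hi' a ha
          rw [Function.update_of_ne (by have := (vW_bd (N := N) hi' ha).1; omega)]
          exact h1.wire i' hi' a ha
        · intro i' hi'
          rw [Function.update_of_ne (by have := vC_gt (N := N) (gs := gs) i'; omega)]
          exact h1.comp i' hi'
      have hfl : Flip (val gs s j 0) (val gs s (j + 1) 0) j := by
        refine ⟨by simp [val_zero], ?_⟩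
        funext w
        rw [val_zero, val_zero]
        by_cases hw : w = j
        · subst hw
          rw [Function.update_self]
          simp [hs]
        · rw [Function.update_of_ne hw]
          have e : decide (w < j + 1) = decide (w < j) := decide_eq_decide.2 (by omega)
          show (decide (w < j + 1) && s w) = (decide (w < j) && s w)
          rw [e]
      obtain ⟨a', c', p1, p2, p3, p4⟩ := path_all hg (by omega) hgood hfl h3
        gs.length le_rfl
      have h5 := p4.next
      rw [rule_Wm p1] at h5
      have hca : c' (vW N gs.length a') = 0 := by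
        rw [p2.wire _ le_rfl a' p1, if_neg (lt_irrefl _), p3.1]
        rfl
      have hgood2 : Good N gs s j (gs.length + 1) (j + 1)
          (Function.update c' (vW N gs.length a') (c' (vW N gs.length a') + 1)) := by
        refine ⟨?_, ?_, ?_⟩
        · intro l hl
          rw [Function.update_of_ne (by
            have := (vW_bd (N := N) (m := gs.length) le_rfl p1).1; omega)]
          exact p2.root l hl
        · intro i' hi' b hb
          rw [if_pos (by omega)]
          by_cases he : vW N i' b = vW N gs.length a'
          · obtain ⟨rfl, rfl⟩ := vW_inj hb p1 he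
            rw [Function.update_self, hca, p3.2, Function.update_self]
            rfl
          · rw [Function.update_of_ne he, p2.wire i' hi' b hb]
            by_cases h6 : i' < gs.length
            · rw [if_pos h6]
            · have : i' = gs.length := by omega
              subst this
              rw [if_neg h6, p3.2, Function.update_of_ne (by rintro rfl; exact he rfl)]
        · intro i' hi'
          rw [Function.update_of_ne (vC_ne_vW le_rfl p1).symm, p2.comp i' hi', if_pos hi',
            if_pos (by omega)]
      exact roots_walk (by omega) (good_shift hgood2) h5 (j + 1) le_rfl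
    · rw [if_neg (fun h => hs h.2)] at h3
      have hval : ∀ i, val gs s (j + 1) i = val gs s j i := by
        intro i
        unfold val
        congr 1
        funext a
        by_cases ha : a = j
        · subst ha
          simp [hs]
        · congr 1
          exact decide_eq_decide.2 (by omega)
      refine ⟨_, ⟨hroot, ?_, ?_⟩, h3⟩
      · intro i' hi' a ha
        rw [Function.update_of_ne (by have := (vW_bd (N := N) hi' ha).1; omega),
          h1.wire i' hi' a ha, if_neg (Nat.not_lt_zero _), if_neg (Nat.not_lt_zero _), hval]
      · intro i' hi'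
        rw [Function.update_of_ne (by have := vC_gt (N := N) (gs := gs) i'; omega),
          h1.comp i' hi', if_neg (Nat.not_lt_zero _), if_neg (Nat.not_lt_zero _), hval]

theorem crun_congr (hg : ∀ g ∈ gs, g.1 < N ∧ g.2 < N ∧ g.1 ≠ g.2) {u u' : ℕ → Bool}
    (h : ∀ a < N, u a = u' a) : ∀ a < N, crun gs u a = crun gs u' a := by
  induction gs generalizing u u' with
  | nil => exact h
  | cons g gs ih =>
    intro a ha
    have h1 := hg g List.mem_cons_self
    refine ih (fun g' hg' => hg g' (List.mem_cons_of_mem _ hg')) ?_ a ha
    intro b hb
    unfold cstep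
    rw [h _ h1.1, h _ h1.2.1, h b hb]

/-- The walk visits the last copy of wire `a` if and only if the wire carries `1`. -/
theorem hard (hg : ∀ g ∈ gs, g.1 < N ∧ g.2 < N ∧ g.1 ≠ g.2) (a : ℕ) (ha : a < N) :
    crun gs s a = true ↔ ∃ t, place (rule N gs s) t = vW N gs.length a := by
  obtain ⟨c, h1, t, ht⟩ := main_reach (s := s) hg N le_rfl
  have hv : crun gs s a = val gs s N gs.length a := by
    unfold val
    rw [List.take_of_length_le le_rfl]
    exact crun_congr hg (fun b hb => by simp [hb]) a ha
  have hw := h1.wire gs.length le_rfl a ha
  rw [if_neg (Nat.not_lt_zero _), ← hv] at hw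
  have hend : ∀ k, place (rule N gs s) (t + k) = N := by
    intro k
    induction k with
    | zero => show (walk _ t).1 = N; rw [ht]
    | succ k ih =>
      rw [← Nat.add_assoc, place_succ', ih, rule_end]
  have hcount : c (vW N gs.length a) =
      ((Finset.range t).filter fun t' => place (rule N gs s) t' = vW N gs.length a).card := by
    rw [← walk_snd, ht]
  constructor
  · intro h
    rw [h] at hw
    have h2 : ((Finset.range t).filter fun t' =>
        place (rule N gs s) t' = vW N gs.length a).card ≠ 0 := by
      rw [← hcount, hw]
      decide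
    rw [Finset.card_ne_zero] at h2
    obtain ⟨t', ht'⟩ := h2
    exact ⟨t', (Finset.mem_filter.1 ht').2⟩
  · rintro ⟨t', ht'⟩
    rcases Nat.lt_or_ge t' t with h2 | h2
    · have h3 : ((Finset.range t).filter fun t' =>
          place (rule N gs s) t' = vW N gs.length a).card ≠ 0 := by
        rw [Finset.card_ne_zero]
        exact ⟨t', Finset.mem_filter.2 ⟨Finset.mem_range.2 h2, ht'⟩⟩
      rw [← hcount, hw] at h3
      cases hc : crun gs s a
      · rw [hc] at h3; exact absurd rfl h3
      · rfl
    · obtain ⟨k, rfl⟩ := Nat.exists_eq_add_of_le h2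
      rw [hend k] at ht'
      have := (vW_bd (N := N) (m := gs.length) le_rfl ha).1
      omega

end

end LibBPL64
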