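import Pool.Agent.LibBPL64.Visit
import Pool.Agent.LibBPL64.Print

/-!
# The network which counts visits (helper64)
-/

namespace LibBPL64

open LibMC75

/-- the start token of level `t` -/
def vTok (t : ℕ) : List (Wire × Wire) := [(Wire.one [t], cz t 0 0)]

/-- one level -/
def vLev (n M t : ℕ) : List (Wire × Wire) :=
  vTok (t + 1) ++ deal3 (fun x _ => x) (fun _ k => k) n M t (prs n M)

def vNet (n M T : ℕ) : List (Wire × Wire) := vTok 0 ++ (List.range T).flatMap (vLev n M)

theorem vTok_spec (t : ℕ) (s : Wire → Bool) (h1 : s (.one [t]) = true)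
    (h2 : ∀ x k, s (cz t x k) = false) :
    (∀ x k, run (vTok t) s (cz t x k) = decide (k < if x = 0 then 1 else 0)) ∧
    ∀ w : Wire, w ≠ .one [t] → w ≠ cz t 0 0 → run (vTok t) s w = s w := by
  unfold vTok
  constructor
  · intro x k
    rw [run_cons, run_nil]
    by_cases hx : x = 0 ∧ k = 0
    · obtain ⟨rfl, rfl⟩ := hx
      rw [step_snd _ (by simp [cz]), h1]
      simp
    · rw [step_other _ (by simp [cz]) (by
        intro he
        simp only [cz, Wire.zero.injEq, List.cons.injEq] at he
        exact hx ⟨he.2.1, he.2.2.1⟩), h2]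
      symm
      rw [decide_eq_false_iff_not]
      by_cases hx0 : x = 0
      · rw [if_pos hx0]
        intro hk
        exact hx ⟨hx0, by omega⟩
      · rw [if_neg hx0]
        omega
  · intro w w1 w2
    rw [run_cons, run_nil]
    exact step_other _ w1 w2

theorem vNet_spec (n M T : ℕ) (σ : ℕ → ℕ → ℕ) (hn : 0 < n)
    (hσ : ∀ x < n, ∀ k < T, σ x k < n) (hM : T < M) :
    ∀ t ≤ T, Inv n M t σ (visits σ t) (run (vNet n M t) (Wire.init σ)) := by
  intro t
  induction t with
  | zero =>
    intro _
    have h0 : vNet n M 0 = vTok 0 := by simp [vNet]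
    obtain ⟨t1, t2⟩ := vTok_spec 0 (Wire.init σ) rfl (fun x k => rfl)
    rw [h0]
    refine ⟨?_, ?_, ?_, ?_, ?_, ?_⟩
    · intro x _ k _
      rw [t1, visits_zero]
    · intro t' _ X C j x k
      rw [t2 _ (by simp) (by simp [cz])]
      rfl
    · intro t' _ X C j x k
      rw [t2 _ (by simp) (by simp [cz])]
      rfl
    · intro t' ht' x k
      rw [t2 _ (by simp [cz]) (by
        intro he
        simp only [cz, Wire.zero.injEq, List.cons.injEq] at he
        omega)]
      rfl
    · intro a b
      rw [t2 _ (by simp) (by simp [cz])]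
      rfl
    · intro t' ht'
      rw [t2 _ (by simp; omega) (by simp [cz])]
      rfl
  | succ t ih =>
    intro ht
    obtain ⟨i1, i2, i3, i4, i5, i6⟩ := ih (by omega)
    have h0 : vNet n M (t + 1) = vNet n M t ++ (vTok (t + 1) ++
        deal3 (fun x _ => x) (fun _ k => k) n M t (prs n M)) := by
      unfold vNet
      rw [List.range_succ, List.flatMap_append, ← List.append_assoc]
      simp [vLev]
    rw [h0, run_append, run_append]
    generalize run (vNet n M t) (Wire.init σ) = s at i1 i2 i3 i4 i5 i6
    obtain ⟨t1, t2⟩ := vTok_spec (t + 1) s (i6 (t + 1) (by omega)) (i4 (t + 1) (by omega))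
    have key := deal3_inv (n := n) (M := M) (t := t) (v := σ) (A := visits σ t)
      (s := run (vTok (t + 1)) s) (fun x _ => x) (fun _ k => k) (fun j => if j = 0 then 1 else 0)
      (fun x _ => (visits_le σ t x).trans (by omega))
      (by
        intro x hx k hk
        rw [t2 _ (by simp [cz]) (by simp [cz])]
        exact i1 x hx k hk)
      (by
        intro t' ht' X C j x k
        rw [t2 _ (by simp) (by simp [cz])]
        exact i2 t' ht' _ _ _ _ _)
      (by
        intro t' ht' X C j x k
        rw [t2 _ (by simp) (by simp [cz])]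
        exact i3 t' ht' _ _ _ _ _)
      (fun j _ h _ => t1 j h)
      (by
        intro t' ht' x k
        rw [t2 _ (by simp [cz]) (by
          intro he
          simp only [cz, Wire.zero.injEq, List.cons.injEq] at he
          omega)]
        exact i4 t' (by omega) _ _)
      (by
        intro a b
        rw [t2 _ (by simp) (by simp [cz])]
        exact i5 a b)
      (by
        intro t' ht'
        rw [t2 _ (by simp; omega) (by simp [cz])]
        exact i6 t' (by omega))
    have hrec : visits σ (t + 1) = fun j => (if j = 0 then 1 else 0) +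
        send σ (fun x _ => x) (fun _ k => k) n (visits σ t) j := by
      funext j
      exact visits_rec hn hσ t (by omega) j
    rw [hrec]
    exact key

/-- the output wires -/
def vOut (n M T : ℕ) : List (Wire × Wire) :=
  (List.range n).flatMap fun w => (List.range M).flatMap fun h => [(cz T w h, Wire.zero [w, h])]

theorem vOut_spec (n M T : ℕ) (s : Wire → Bool) (h0 : ∀ a b, s (.zero [a, b]) = false) :
    (∀ w < n, ∀ h < M, run (vOut n M T) s (.zero [w, h]) = s (cz T w h)) ∧
    ∀ w < n, ∀ h, M ≤ h → run (vOut n M T) s (.zero [w, h]) = false := by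
  have key := run_range_induction (fun w => (List.range M).flatMap fun h =>
      [(cz T w h, Wire.zero [w, h])])
    (fun w0 s' => (∀ w < w0, ∀ j < M, s' (.zero [w, j]) = s (cz T w j)) ∧
      (∀ w < w0, ∀ j, M ≤ j → s' (.zero [w, j]) = false) ∧
      (∀ w, w0 ≤ w → ∀ j, s' (.zero [w, j]) = false) ∧
      (∀ w, w0 ≤ w → ∀ k, s' (cz T w k) = s (cz T w k))) n s
    ⟨fun w hw => absurd hw (Nat.not_lt_zero _), fun w hw => absurd hw (Nat.not_lt_zero _),
      fun w _ j => h0 w j, fun w _ k => rfl⟩ (by
      rintro q hq s' ⟨h1, h1', h2, h3⟩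
      have key2 := run_range_induction
        (fun j => [(cz T q j, Wire.zero [q, j])])
        (fun j0 s'' => (∀ j < j0, s'' (.zero [q, j]) = s (cz T q j)) ∧
          (∀ j, j0 ≤ j → s'' (.zero [q, j]) = false) ∧
          (∀ j, j0 ≤ j → s'' (cz T q j) = s (cz T q j)) ∧
          (∀ w, w ≠ q → ∀ j, s'' (.zero [w, j]) = s' (.zero [w, j])) ∧
          (∀ w, w ≠ q → ∀ k, s'' (cz T w k) = s' (cz T w k))) M s'
        ⟨fun j hj => absurd hj (Nat.not_lt_zero _), fun j _ => h2 q le_rfl j,
          fun j _ => h3 q le_rfl _, fun w _ j => rfl, fun w _ k => rfl⟩ (by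
          rintro p hp s'' ⟨g1, g2, g3, g4, g5⟩
          rw [run_cons, run_nil]
          refine ⟨?_, ?_, ?_, ?_, ?_⟩
          · intro j hj
            by_cases hjp : j = p
            · subst hjp
              rw [step_snd _ (by simp [cz]), g2 j le_rfl, g3 j le_rfl, Bool.or_false]
            · rw [step_other _ (by simp [cz]) (by simp [hjp])]
              exact g1 j (by omega)
          · intro j hj
            rw [step_other _ (by simp [cz]) (by simp; omega)]
            exact g2 j (by omega)
          · intro j hj
            rw [step_other _ (by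
              intro he
              simp only [cz, Wire.zero.injEq, List.cons.injEq] at he
              omega) (by simp [cz])]
            exact g3 j (by omega)
          · intro w hw j
            rw [step_other _ (by simp [cz]) (by simp [hw])]
            exact g4 w hw j
          · intro w hw k
            rw [step_other _ (by simp [cz, hw]) (by simp [cz])]
            exact g5 w hw k)
      obtain ⟨g1, g2, -, g4, g5⟩ := key2
      refine ⟨?_, ?_, ?_, ?_⟩
      · intro w hw j hj
        by_cases hwq : w = q
        · subst hwq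
          exact g1 j hj
        · rw [g4 w hwq j]
          exact h1 w (by omega) j hj
      · intro w hw j hj
        by_cases hwq : w = q
        · subst hwq
          exact g2 j hj
        · rw [g4 w hwq j]
          exact h1' w (by omega) j hj
      · intro w hw j
        rw [g4 w (by omega) j]
        exact h2 w (by omega) j
      · intro w hw k
        rw [g5 w (by omega) k]
        exact h3 w (by omega) k)
  exact ⟨key.1, key.2.1⟩

/-- environment `j, k, x, t, n, T` -/
def qDeal : Prog :=
  .seq (.comp (.pos (.var 2) (.var 1) (.var 0) [.var 3, .var 2, .var 1])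
      (.zero [.var 3, .var 2, .var 1]))
    (.seq (.comp (.zero [.var 3, .var 2, .var 1])
      (.neg (.var 2) (.var 1) (.var 0) [.var 3, .var 2, .var 1]))
      (.loop (.add (.var 5) (.const 1))
        (.comp (.pos (.var 3) (.var 2) (.var 1) [.var 4, .var 3, .var 2])
          (.zero [.add (.var 4) (.const 1), .var 1, .var 0]))))

/-- environment `n, T` -/
def pVis : Prog :=
  .seq (.comp (.one [.const 0]) (.zero [.const 0, .const 0, .const 0]))
    (.seq (.loop (.var 1)
        (.seq (.comp (.one [.add (.var 0) (.const 1)])
          (.zero [.add (.var 0) (.const 1), .const 0, .const 0]))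
          (.loop (.var 1) (.loop (.add (.var 3) (.const 1)) (.loop (.var 3) qDeal)))))
      (.loop (.var 0) (.loop (.add (.var 2) (.const 1))
        (.comp (.zero [.var 3, .var 1, .var 0]) (.zero [.var 1, .var 0])))))

theorem pVis_print (n T : ℕ) :
    pVis.print [n, T] = vNet n (T + 1) T ++ vOut n (T + 1) T := by
  have h1 : vNet n (T + 1) T = vTok 0 ++ (List.range T).flatMap fun t => vTok (t + 1) ++
      (List.range n).flatMap fun x => (List.range (T + 1)).flatMap fun k =>
          (List.range n).flatMap fun j => deal1 x k (T + 1) t x k j := by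
    unfold vNet vLev deal3
    congr 2
    funext t
    congr 1
    exact flatMap_prs n (T + 1) (fun x k => deal2 x k n (T + 1) t x k)
  rw [h1, List.append_assoc]
  unfold pVis
  simp only [Prog.print]
  rfl

theorem pVis_spec (n T : ℕ) (σ : ℕ → ℕ → ℕ) (hn : 0 < n)
    (hσ : ∀ x < n, ∀ k < T, σ x k < n) (w : ℕ) (hw : w < n) (h : ℕ) :
    run (pVis.print [n, T]) (Wire.init σ) (.zero [w, h]) = true ↔ h < visits σ T w := by
  rw [pVis_print, run_append]
  have key := vNet_spec n (T + 1) T σ hn hσ (Nat.lt_succ_self T) T le_rfl
  obtain ⟨o1, o2⟩ := vOut_spec n (T + 1) T _ key.two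
  by_cases hh : h < T + 1
  · rw [o1 w hw h hh, key.cnt w hw h hh, decide_eq_true_eq]
  · rw [o2 w hw h (by omega)]
    have := visits_le σ T w
    constructor
    · intro h'; exact absurd h' (by simp)
    · intro h'; omega

end LibBPL64
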