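import Pool.Agent.LibBPL64.Layer

/-!
# Walks with visit counters (helper64)
-/

namespace LibBPL64

open LibMC75

/-- The walk with visit counters: `(walk σ t).1` is the place at time `t` and `(walk σ t).2 x` the
number of the earlier visits of `x`.  It starts in `0` and leaves a place `x` in which it has been
`k` times before to `σ x k`. -/
def walk (σ : ℕ → ℕ → ℕ) : ℕ → ℕ × (ℕ → ℕ)
  | 0 => (0, fun _ => 0)
  | t + 1 => (σ (walk σ t).1 ((walk σ t).2 (walk σ t).1),
      Function.update (walk σ t).2 (walk σ t).1 ((walk σ t).2 (walk σ t).1 + 1))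

/-- the place at time `t` -/
def place (σ : ℕ → ℕ → ℕ) (t : ℕ) : ℕ := (walk σ t).1

/-- the number of the visits of `w` up to time `T` -/
def visits (σ : ℕ → ℕ → ℕ) (T w : ℕ) : ℕ :=
  ((Finset.range (T + 1)).filter fun t => place σ t = w).card

theorem walk_snd (σ : ℕ → ℕ → ℕ) (t w : ℕ) :
    (walk σ t).2 w = ((Finset.range t).filter fun t' => place σ t' = w).card := by
  induction t with
  | zero => simp [walk]
  | succ t ih =>
    rw [walk, Finset.range_add_one, Finset.filter_insert]
    by_cases h : place σ t = w
    · rw [if_pos h, Finset.card_insert_of_notMem (by simp), ← ih]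
      have : w = (walk σ t).1 := h.symm
      subst this
      simp
    · rw [if_neg h, ← ih]
      exact Function.update_of_ne (fun e => h e.symm) _ _

theorem place_zero (σ : ℕ → ℕ → ℕ) : place σ 0 = 0 := rfl

theorem place_succ (σ : ℕ → ℕ → ℕ) (t : ℕ) : place σ (t + 1) =
    σ (place σ t) ((Finset.range t).filter fun t' => place σ t' = place σ t).card := by
  rw [← walk_snd]
  rfl

theorem visits_zero (σ : ℕ → ℕ → ℕ) (w : ℕ) : visits σ 0 w = if w = 0 then 1 else 0 := by
  unfold visits
  by_cases h : w = 0
  · subst h
    rw [if_pos rfl, Finset.filter_true_of_mem]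
    · simp
    · intro t ht
      have : t = 0 := by simpa using ht
      subst this
      exact place_zero σ
  · rw [if_neg h, Finset.card_eq_zero]
    ext t
    simp only [Finset.mem_filter, Finset.mem_range, Finset.notMem_empty, iff_false]
    rintro ⟨h1, h2⟩
    have : t = 0 := by omega
    subst this
    exact h h2.symm

theorem visits_succ' (σ : ℕ → ℕ → ℕ) (t w : ℕ) :
    visits σ (t + 1) w = visits σ t w + if place σ (t + 1) = w then 1 else 0 := by
  unfold visits
  rw [Finset.range_add_one (n := t + 1), Finset.filter_insert]
  by_cases h : place σ (t + 1) = w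
  · simp only [if_pos h]
    rw [Finset.card_insert_of_notMem (by simp)]
  · simp only [if_neg h, Nat.add_zero]

theorem visits_le (σ : ℕ → ℕ → ℕ) (t w : ℕ) : visits σ t w ≤ t + 1 := by
  unfold visits
  exact (Finset.card_filter_le _ _).trans (by simp)

theorem place_succ' (σ : ℕ → ℕ → ℕ) (t : ℕ) : place σ (t + 1) =
    σ (place σ t) (visits σ t (place σ t) - 1) := by
  rw [place_succ]
  congr 1
  unfold visits
  rw [Finset.range_add_one, Finset.filter_insert, if_pos rfl,
    Finset.card_insert_of_notMem (by simp), Nat.add_sub_cancel]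

theorem visits_pos (σ : ℕ → ℕ → ℕ) (t : ℕ) : 1 ≤ visits σ t (place σ t) := by
  unfold visits
  rw [Nat.one_le_iff_ne_zero, Finset.card_ne_zero]
  exact ⟨t, by simp⟩

theorem place_lt {n : ℕ} {σ : ℕ → ℕ → ℕ} {T : ℕ} (hn : 0 < n) (hσ : ∀ x < n, ∀ k < T, σ x k < n) :
    ∀ t ≤ T, place σ t < n := by
  intro t
  induction t with
  | zero => intro _; exact hn
  | succ t ih =>
    intro ht
    have h1 := ih (by omega)
    rw [place_succ']
    refine hσ _ h1 _ ?_
    have := visits_le σ t (place σ t)
    omega

/-- the recursion for the numbers of visits -/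
theorem visits_rec {n : ℕ} {σ : ℕ → ℕ → ℕ} {T : ℕ} (hn : 0 < n)
    (hσ : ∀ x < n, ∀ k < T, σ x k < n) :
    ∀ t < T, ∀ w, visits σ (t + 1) w =
      (if w = 0 then 1 else 0) + send σ (fun x _ => x) (fun _ k => k) n (visits σ t) w := by
  intro t
  induction t with
  | zero =>
    intro _ w
    rw [visits_succ', visits_zero]
    congr 1
    unfold send
    have h1 : ∀ x ∈ Finset.range n, ((Finset.range (visits σ 0 x)).filter fun k =>
        σ x k = w).card = if x = 0 then (if σ 0 0 = w then 1 else 0) else 0 := by
      intro x _
      rw [visits_zero]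
      by_cases hx : x = 0
      · subst hx
        rw [if_pos rfl, if_pos rfl]
        by_cases hw : σ 0 0 = w
        · rw [if_pos hw, Finset.filter_true_of_mem]
          · simp
          · intro k hk
            have : k = 0 := by simpa using hk
            rw [this, hw]
        · rw [if_neg hw, Finset.card_eq_zero, Finset.filter_false_of_mem]
          intro k hk
          have : k = 0 := by simpa using hk
          rw [this]
          exact hw
      · rw [if_neg hx, if_neg hx]
        simp
    rw [Finset.sum_congr rfl h1, Finset.sum_ite_eq' (Finset.range n) 0,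
      if_pos (Finset.mem_range.2 hn)]
    have : place σ 1 = σ 0 0 := by rw [place_succ]; simp [place_zero]
    rw [this]
  | succ t ih =>
    intro ht w
    have hp : place σ (t + 1) < n := place_lt hn hσ (t + 1) (by omega)
    rw [visits_succ', ih (by omega) w, Nat.add_assoc]
    congr 1
    unfold send
    have h1 : ∀ x ∈ Finset.range n, ((Finset.range (visits σ (t + 1) x)).filter fun k =>
        σ x k = w).card = ((Finset.range (visits σ t x)).filter fun k => σ x k = w).card +
          if x = place σ (t + 1) then (if place σ (t + 2) = w then 1 else 0) else 0 := by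
      intro x _
      rw [visits_succ']
      by_cases hx : place σ (t + 1) = x
      · subst hx
        rw [if_pos rfl, if_pos rfl, Finset.range_add_one, Finset.filter_insert]
        have h2 : σ (place σ (t + 1)) (visits σ t (place σ (t + 1))) = place σ (t + 2) := by
          rw [place_succ' σ (t + 1), visits_succ', if_pos rfl, Nat.add_sub_cancel]
        rw [h2]
        by_cases hw : place σ (t + 2) = w
        · simp only [if_pos hw]
          rw [Finset.card_insert_of_notMem (by simp)]
        · simp only [if_neg hw, Nat.add_zero]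
      · rw [if_neg hx, if_neg (fun e => hx e.symm), Nat.add_zero, Nat.add_zero]
    rw [Finset.sum_congr rfl h1, Finset.sum_add_distrib, Finset.sum_ite_eq' (Finset.range n),
      if_pos (Finset.mem_range.2 hp)]

/-- times of first visits -/
def First (σ : ℕ → ℕ → ℕ) (t : ℕ) : Prop := ∀ t' < t, place σ t' ≠ place σ t

/-- a place which has been visited before is left to `σ x 1` -/
theorem place_later {σ : ℕ → ℕ → ℕ} (hσ : ∀ x k, σ x (k + 1) = σ x 1) {t : ℕ}
    (h : ¬ First σ t) : place σ (t + 1) = σ (place σ t) 1 := by
  rw [place_succ]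
  have h1 : ((Finset.range t).filter fun t' => place σ t' = place σ t).card ≠ 0 := by
    rw [Finset.card_ne_zero]
    unfold First at h
    push Not at h
    obtain ⟨t', h1, h2⟩ := h
    exact ⟨t', by simp [h1, h2]⟩
  obtain ⟨k, hk⟩ := Nat.exists_eq_succ_of_ne_zero h1
  rw [hk]
  exact hσ _ _

theorem first_gap {n : ℕ} {σ : ℕ → ℕ → ℕ} (hn : 0 < n) (hb : ∀ x < n, ∀ k, σ x k < n)
    (hσ : ∀ x k, σ x (k + 1) = σ x 1) {t : ℕ} (ht : First σ t) (h0 : 0 < t) :
    ∃ t' < t, First σ t' ∧ t ≤ t' + n := by
  by_contra hcon
  push Not at hcon
  have hlt : ∀ s, place σ s < n := fun s =>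
    place_lt (T := s) hn (fun x hx k _ => hb x hx k) s le_rfl
  have hnf : ∀ s < t, t ≤ s + n → ¬ First σ s := fun s h1 h2 h3 => by
    have := hcon s h1 h3
    omega
  have hnt : n < t + 1 := by
    by_contra h
    exact hnf 0 h0 (by omega) (fun t' h' => absurd h' (Nat.not_lt_zero _))
  have hnt' : n ≤ t := by omega
  -- two equal places among t - n, ..., t - 1
  have hmap : ∀ i ∈ Finset.range n, place σ (t - n + i) ∈
      (Finset.range n).erase (place σ t) := by
    intro i hi
    rw [Finset.mem_range] at hi
    rw [Finset.mem_erase, Finset.mem_range]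
    exact ⟨ht _ (by omega), hlt _⟩
  have hcard : ((Finset.range n).erase (place σ t)).card < (Finset.range n).card := by
    rw [Finset.card_erase_of_mem (Finset.mem_range.2 (hlt t)), Finset.card_range]
    omega
  obtain ⟨i, hi, j, hj, hij, he⟩ := Finset.exists_ne_map_eq_of_card_lt_of_maps_to hcard hmap
  rw [Finset.mem_range] at hi hj
  wlog hlt' : i < j generalizing i j with H
  · exact H j hj i hi hij.symm he.symm (by omega)
  have hper : ∀ k, t - n + j + k ≤ t → place σ (t - n + i + k) = place σ (t - n + j + k) := by
    intro k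
    induction k with
    | zero => intro _; exact he
    | succ k ih =>
      intro hk
      have h1 := ih (by omega)
      have h2 : ¬ First σ (t - n + i + k) := hnf _ (by omega) (by omega)
      have h3 : ¬ First σ (t - n + j + k) := hnf _ (by omega) (by omega)
      have e1 := place_later hσ h2
      have e2 := place_later hσ h3
      rw [← Nat.add_assoc, ← Nat.add_assoc, e1, e2, h1]
  have h5 := hper (n - j) (by omega)
  have h6 : t - n + j + (n - j) = t := by omega
  rw [h6] at h5
  exact ht (t - n + i + (n - j)) (by omega) h5

theorem first_le {n : ℕ} {σ : ℕ → ℕ → ℕ} (hn : 0 < n) (hb : ∀ x < n, ∀ k, σ x k < n)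
    (hσ : ∀ x k, σ x (k + 1) = σ x 1) : ∀ t, First σ t →
    t ≤ n * ((Finset.range t).image (place σ)).card := by
  intro t
  induction t using Nat.strong_induction_on with
  | _ t ih =>
    intro ht
    rcases Nat.eq_zero_or_pos t with h0 | h0
    · subst h0; simp
    · obtain ⟨t', h1, h2, h3⟩ := first_gap hn hb hσ ht h0
      have h4 := ih t' h1 h2
      have h5 : ((Finset.range t').image (place σ)).card + 1 ≤
          ((Finset.range t).image (place σ)).card := by
        have h6 : place σ t' ∉ (Finset.range t').image (place σ) := by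
          rw [Finset.mem_image]
          rintro ⟨s, hs, he⟩
          exact h2 s (Finset.mem_range.1 hs) he
        rw [← Finset.card_insert_of_notMem h6]
        refine Finset.card_le_card ?_
        intro x hx
        rw [Finset.mem_insert] at hx
        rw [Finset.mem_image]
        rcases hx with rfl | hx
        · exact ⟨t', Finset.mem_range.2 h1, rfl⟩
        · rw [Finset.mem_image] at hx
          obtain ⟨s, hs, he⟩ := hx
          rw [Finset.mem_range] at hs
          exact ⟨s, Finset.mem_range.2 (by omega), he⟩
      calc t ≤ t' + n := h3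
        _ ≤ n * ((Finset.range t').image (place σ)).card + n := by omega
        _ = n * (((Finset.range t').image (place σ)).card + 1) := by ring
        _ ≤ _ := Nat.mul_le_mul_left _ h5

/-- if a walk with the rule (first visit, later visits) visits `w`, then it does so within
`n * n` steps -/
theorem visit_bound {n : ℕ} {σ : ℕ → ℕ → ℕ} (hn : 0 < n) (hb : ∀ x < n, ∀ k, σ x k < n)
    (hσ : ∀ x k, σ x (k + 1) = σ x 1) (w : ℕ) (h : ∃ t, place σ t = w) :
    ∃ t ≤ n * n, place σ t = w := by
  classical
  refine ⟨Nat.find h, ?_, Nat.find_spec h⟩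
  have h1 : First σ (Nat.find h) := by
    intro t' ht' he
    exact Nat.find_min h ht' (he.trans (Nat.find_spec h))
  refine (first_le hn hb hσ _ h1).trans (Nat.mul_le_mul_left _ ?_)
  have h2 : (Finset.range (Nat.find h)).image (place σ) ⊆ Finset.range n := by
    intro x hx
    rw [Finset.mem_image] at hx
    obtain ⟨s, -, rfl⟩ := hx
    exact Finset.mem_range.2 (place_lt (T := s) hn (fun x hx k _ => hb x hx k) s le_rfl)
  exact (Finset.card_le_card h2).trans (by simp)

end LibBPL64
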